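import Mathlib

/-!
# Furstenberg towers: definitions

`X = (R/Z)^ι`, `ι` with a level function. `T x i = x i + ∑ a_il x_l + ψ_i(x)`.
-/

set_option autoImplicit false

namespace Pool.Agent.Lib.MP_9fe581_an.FT

open Finset MeasureTheory

/-- the exponential `e(w)` of a point of the circle -/
noncomputable def ec (w : UnitAddCircle) : ℂ := (AddCircle.toCircle w : ℂ)

/-- the integer combination `∑ m_i x_i` -/
noncomputable def pr {ι : Type} (m : ι →₀ ℤ) (x : ι → UnitAddCircle) : UnitAddCircle :=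
  m.sum fun i k => k • x i

/-- the data of a tower of torus extensions -/
structure Tower (ι : Type) where
  /-- the level of a coordinate -/
  lev : ι → ℕ
  /-- the linear parts -/
  a : ι → (ι →₀ ℤ)
  /-- the real parts -/
  ψ : ι → (ι → UnitAddCircle) → ℝ
  sup : ∀ i l, a i l ≠ 0 → lev l < lev i
  dep : ∀ i x y, (∀ l, lev l < lev i → x l = y l) → ψ i x = ψ i y
  cont : ∀ i, Continuous (ψ i)
  lip : ∀ i l, lev l + 1 = lev i → ∃ L : ℝ, ∀ (x y : ι → UnitAddCircle) (s : ℝ),
    (∀ k, k ≠ l → y k = x k) → y l = x l + (s : UnitAddCircle) → |ψ i y - ψ i x| ≤ L * |s|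
  base : ∀ m : ι →₀ ℤ, m ≠ 0 → (∀ i, m i ≠ 0 → lev i = 0) → ∀ k : ℤ,
    (m.sum fun i c => (c : ℝ) * ψ i 0) ≠ k
  deg : ∀ j : ℕ, ∀ m : ι →₀ ℤ, m ≠ 0 → (∀ i, m i ≠ 0 → lev i = j + 1) →
    ∃ l, lev l = j ∧ (m.sum fun i c => c * a i l) ≠ 0

variable {ι : Type}

/-- the cocycle of the coordinate `i` -/
noncomputable def phi (W : Tower ι) (i : ι) (x : ι → UnitAddCircle) : UnitAddCircle :=
  pr (W.a i) x + (W.ψ i x : UnitAddCircle)

/-- the tower map -/
noncomputable def T (W : Tower ι) (x : ι → UnitAddCircle) : ι → UnitAddCircle :=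
  fun i => x i + phi W i x

/-- the map truncated to the coordinates of level `< j` -/
noncomputable def Tr (W : Tower ι) (j : ℕ) (x : ι → UnitAddCircle) : ι → UnitAddCircle :=
  fun i => if W.lev i < j then T W x i else x i

/-- the projection to the coordinates of level `< j` -/
noncomputable def cut (W : Tower ι) (j : ℕ) (x : ι → UnitAddCircle) : ι → UnitAddCircle :=
  fun i => if W.lev i < j then x i else 0

/-- the product of powers of the truncated maps -/
noncomputable def Sp (W : Tower ι) (p q j : ℕ) (z : (ι → UnitAddCircle) × (ι → UnitAddCircle)) :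
    (ι → UnitAddCircle) × (ι → UnitAddCircle) :=
  ((Tr W j)^[p] z.1, (Tr W j)^[q] z.2)

/-- the induction hypothesis: Fourier coefficients of invariant measures -/
def HH (W : Tower ι) (p q j : ℕ) : Prop :=
  ∀ ρ : Measure ((ι → UnitAddCircle) × (ι → UnitAddCircle)), IsFiniteMeasure ρ →
    MeasurePreserving (Sp W p q (j + 1)) ρ ρ → ∀ m m' : ι →₀ ℤ,
    (∃ l, W.lev l = j ∧ (p : ℤ) ^ (j + 1) * m l + (q : ℤ) ^ (j + 1) * m' l ≠ 0) →
    ∫ z, ec (pr m z.1 + pr m' z.2) ∂ρ = 0

/-- the circle action with weights -/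
noncomputable def Rw [DecidableEq ι] (l : ι) (a b : ℕ) (s : ℝ)
    (z : (ι → UnitAddCircle) × (ι → UnitAddCircle)) :
    (ι → UnitAddCircle) × (ι → UnitAddCircle) :=
  (z.1 + Pi.single l (((a : ℝ) * s : ℝ) : UnitAddCircle),
    z.2 + Pi.single l (((b : ℝ) * s : ℝ) : UnitAddCircle))

/-! basic facts about `ec` and `pr` -/

theorem ec_add (v w : UnitAddCircle) : ec (v + w) = ec v * ec w := by
  unfold ec
  rw [AddCircle.toCircle_add]
  rfl

theorem ec_zero : ec 0 = 1 := by
  unfold ec
  rw [AddCircle.toCircle_zero]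
  rfl

theorem norm_ec (w : UnitAddCircle) : ‖ec w‖ = 1 := by
  unfold ec
  exact Circle.norm_coe _

theorem ec_neg (w : UnitAddCircle) : ec (-w) = (starRingEnd ℂ) (ec w) := by
  have h : ec (-w) * ec w = 1 := by rw [← ec_add, neg_add_cancel, ec_zero]
  have h2 : (starRingEnd ℂ) (ec w) * ec w = 1 := by
    rw [mul_comm, Complex.mul_conj, Complex.normSq_eq_norm_sq, norm_ec]
    norm_num
  have h0 : ec w ≠ 0 := fun h0 => by
    have := norm_ec w
    rw [h0, norm_zero] at this
    norm_num at this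
  exact mul_right_cancel₀ h0 (h.trans h2.symm)

theorem continuous_ec : Continuous ec := by
  have h : ec = fun w => ((fourier 1 : C(UnitAddCircle, ℂ)) w) := by
    funext w
    rw [fourier_one]
    rfl
  rw [h]
  exact (fourier 1 : C(UnitAddCircle, ℂ)).continuous

theorem ec_coe (s : ℝ) : ec (s : UnitAddCircle) = Complex.exp (((2 * Real.pi * s : ℝ) : ℂ) * Complex.I) := by
  unfold ec
  rw [AddCircle.toCircle_apply_mk, Circle.coe_exp]
  congr 2
  push_cast
  ring

theorem ec_injective : Function.Injective ec := by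
  intro v w h
  unfold ec at h
  exact AddCircle.injective_toCircle one_ne_zero (Subtype.ext h)

theorem ec_eq_one {w : UnitAddCircle} (h : ec w = 1) : w = 0 :=
  ec_injective (h.trans ec_zero.symm)

/-- `4 |s| ≤ |e(s) - 1|` for `|s| ≤ 1/2` -/
theorem norm_ec_sub_one (s : ℝ) (hs : |s| ≤ 1 / 2) : 4 * |s| ≤ ‖ec (s : UnitAddCircle) - 1‖ := by
  rw [ec_coe]
  have h1 : ‖Complex.exp (((2 * Real.pi * s : ℝ) : ℂ) * Complex.I) - 1‖ = 2 * |Real.sin (Real.pi * s)| := by
    rw [mul_comm, Complex.norm_exp_I_mul_ofReal_sub_one]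
    rw [norm_mul, Real.norm_ofNat, Real.norm_eq_abs]
    congr 3
    ring
  rw [h1]
  have hpi := Real.pi_pos
  have h2 : 2 / Real.pi * (Real.pi * |s|) ≤ Real.sin (Real.pi * |s|) := by
    refine Real.mul_le_sin (by positivity) ?_
    nlinarith
  have h3 : 2 / Real.pi * (Real.pi * |s|) = 2 * |s| := by field_simp
  have h4 : |Real.sin (Real.pi * s)| = Real.sin (Real.pi * |s|) := by
    rcases abs_cases s with ⟨h, h'⟩ | ⟨h, h'⟩
    · rw [h, abs_of_nonneg]
      refine Real.sin_nonneg_of_nonneg_of_le_pi (by positivity) ?_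
      rw [h] at hs
      nlinarith
    · rw [h, mul_neg, Real.sin_neg, abs_of_nonpos]
      refine Real.sin_nonpos_of_nonpos_of_neg_pi_le (by nlinarith) ?_
      rw [h] at hs
      nlinarith
  rw [h4]
  linarith

theorem pr_zero (x : ι → UnitAddCircle) : pr (0 : ι →₀ ℤ) x = 0 := by
  unfold pr
  exact Finsupp.sum_zero_index

theorem pr_add (m m' : ι →₀ ℤ) (x : ι → UnitAddCircle) : pr (m + m') x = pr m x + pr m' x := by
  classical
  unfold pr
  exact Finsupp.sum_add_index' (fun i => zero_smul ℤ _) (fun i a b => add_smul a b _)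

theorem pr_neg (m : ι →₀ ℤ) (x : ι → UnitAddCircle) : pr (-m) x = -pr m x := by
  have h := pr_add (-m) m x
  rw [neg_add_cancel, pr_zero] at h
  exact eq_neg_of_add_eq_zero_left h.symm

theorem pr_add_right (m : ι →₀ ℤ) (x y : ι → UnitAddCircle) : pr m (x + y) = pr m x + pr m y := by
  unfold pr
  rw [← Finsupp.sum_add]
  refine Finsupp.sum_congr fun i _ => ?_
  rw [Pi.add_apply, smul_add]

theorem pr_single [DecidableEq ι] (m : ι →₀ ℤ) (l : ι) (v : UnitAddCircle) :
    pr m (Pi.single l v) = m l • v := by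
  unfold pr
  by_cases h : l ∈ m.support
  · rw [Finsupp.sum, Finset.sum_eq_single_of_mem l h]
    · rw [Pi.single_eq_same]
    · intro i _ hi
      rw [Pi.single_eq_of_ne hi, smul_zero]
  · rw [Finsupp.notMem_support_iff.mp h, zero_smul, Finsupp.sum]
    refine Finset.sum_eq_zero fun i hi => ?_
    have : i ≠ l := fun h' => h (h' ▸ hi)
    rw [Pi.single_eq_of_ne this, smul_zero]

theorem continuous_pr (m : ι →₀ ℤ) : Continuous (pr m) := by
  unfold pr Finsupp.sum
  exact continuous_finsetSum _ fun i _ => (continuous_apply i).zsmul (m i)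

/-- `pr m x` depends only on the coordinates in the support of `m` -/
theorem pr_congr (m : ι →₀ ℤ) (x y : ι → UnitAddCircle) (h : ∀ i, m i ≠ 0 → x i = y i) :
    pr m x = pr m y := by
  unfold pr
  refine Finsupp.sum_congr fun i hi => ?_
  rw [h i (Finsupp.mem_support_iff.mp hi)]

end Pool.Agent.Lib.MP_9fe581_an.FT
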