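import Mathlib
import Pool.Agent.Lib.MP_9fe581_an.FT.Def

/-!
# Density of characters, and measures are determined by their Fourier coefficients
-/

set_option autoImplicit false

namespace Pool.Agent.Lib.MP_9fe581_an.FT

open Finset MeasureTheory Filter
open scoped Topology

theorem dens_span {K : Type} [TopologicalSpace K] [CompactSpace K] (A : Submonoid C(K, ℂ))
    (hstar : ∀ f ∈ A, star f ∈ A) (hsep : ∀ x y : K, x ≠ y → ∃ f ∈ A, f x ≠ f y) (f : C(K, ℂ))
    (ε : ℝ) (hε : 0 < ε) : ∃ p ∈ Submodule.span ℂ (A : Set C(K, ℂ)), ‖f - p‖ < ε := by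
  set B : StarSubalgebra ℂ C(K, ℂ) := StarAlgebra.adjoin ℂ (A : Set C(K, ℂ)) with hB
  have hAB : (A : Set C(K, ℂ)) ⊆ B := StarAlgebra.subset_adjoin ℂ _
  have hs : B.SeparatesPoints := by
    intro x y hxy
    obtain ⟨g, hg, hne⟩ := hsep x y hxy
    exact ⟨g, ⟨g, hAB hg, rfl⟩, hne⟩
  have htop := ContinuousMap.starSubalgebra_topologicalClosure_eq_top_of_separatesPoints B hs
  have hf : f ∈ closure (B : Set C(K, ℂ)) := by
    have h1 : f ∈ B.topologicalClosure := by rw [htop]; exact StarSubalgebra.mem_top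
    exact h1
  obtain ⟨p, hp, hd⟩ := Metric.mem_closure_iff.mp hf ε hε
  refine ⟨p, ?_, by rwa [dist_eq_norm] at hd⟩
  have h1 : p ∈ Algebra.adjoin ℂ ((A : Set C(K, ℂ)) ∪ star (A : Set C(K, ℂ))) := by
    have h2 : p ∈ B.toSubalgebra := hp
    rwa [hB, StarAlgebra.adjoin_toSubalgebra] at h2
  have h3 : (A : Set C(K, ℂ)) ∪ star (A : Set C(K, ℂ)) = A := by
    apply Set.union_eq_left.mpr
    intro g hg
    have h4 := hstar _ hg
    rwa [star_star] at h4
  rw [h3] at h1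
  have h5 : p ∈ Subalgebra.toSubmodule (Algebra.adjoin ℂ (A : Set C(K, ℂ))) := h1
  rw [Algebra.adjoin_eq_span, Submonoid.closure_eq] at h5
  exact h5

theorem meas_ext {K : Type} [TopologicalSpace K] [CompactSpace K] [TopologicalSpace.MetrizableSpace K]
    [MeasurableSpace K] [BorelSpace K] (A : Submonoid C(K, ℂ))
    (hstar : ∀ f ∈ A, star f ∈ A) (hsep : ∀ x y : K, x ≠ y → ∃ f ∈ A, f x ≠ f y)
    (P Q : Measure K) [IsFiniteMeasure P] [IsFiniteMeasure Q]
    (h : ∀ f ∈ A, ∫ x, f x ∂P = ∫ x, f x ∂Q) : P = Q := by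
  let _ : MetricSpace K := TopologicalSpace.metrizableSpaceMetric K
  have hint : ∀ (μ : Measure K) [IsFiniteMeasure μ] (f : C(K, ℂ)), Integrable f μ := fun μ _ f =>
    Integrable.of_bound f.continuous.measurable.aestronglyMeasurable ‖f‖
      (Eventually.of_forall f.norm_coe_le_norm)
  have hspan : ∀ p ∈ Submodule.span ℂ (A : Set C(K, ℂ)), ∫ x, p x ∂P = ∫ x, p x ∂Q := by
    intro p hp
    induction hp using Submodule.span_induction with
    | mem p hp => exact h p hp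
    | zero => simp
    | add f g _ _ hf hg =>
      have e1 : ∀ (μ : Measure K) [IsFiniteMeasure μ], ∫ x, (f + g) x ∂μ = ∫ x, f x ∂μ + ∫ x, g x ∂μ :=
        fun μ _ => integral_add (hint μ f) (hint μ g)
      rw [e1, e1, hf, hg]
    | smul c f _ hf =>
      have e1 : ∀ (μ : Measure K) [IsFiniteMeasure μ], ∫ x, (c • f) x ∂μ = c • ∫ x, f x ∂μ :=
        fun μ _ => integral_smul c _
      rw [e1, e1, hf]
  refine ext_of_forall_integral_eq_of_IsFiniteMeasure fun f => ?_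
  -- the complex version
  set fc : C(K, ℂ) := ⟨fun x => ((f x : ℝ) : ℂ), Complex.continuous_ofReal.comp f.continuous⟩ with hfc
  have e2 : ∀ (μ : Measure K) [IsFiniteMeasure μ], ∫ x, fc x ∂μ = ((∫ x, f x ∂μ : ℝ) : ℂ) := fun μ _ =>
    integral_complex_ofReal
  have hsmall : ∀ ε : ℝ, 0 < ε → ‖∫ x, fc x ∂P - ∫ x, fc x ∂Q‖ ≤ ε * (P.real Set.univ + Q.real Set.univ) := by
    intro ε hε
    obtain ⟨p, hp, hd⟩ := dens_span A hstar hsep fc ε hε
    have e3 : ∀ (μ : Measure K) [IsFiniteMeasure μ], ‖∫ x, fc x ∂μ - ∫ x, p x ∂μ‖ ≤ ε * μ.real Set.univ := by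
      intro μ _
      rw [← integral_sub (hint μ fc) (hint μ p)]
      refine norm_integral_le_of_norm_le_const (Eventually.of_forall fun x => ?_)
      exact ((fc - p).norm_coe_le_norm x).trans hd.le
    have e4 : ∫ x, fc x ∂P - ∫ x, fc x ∂Q =
        (∫ x, fc x ∂P - ∫ x, p x ∂P) - (∫ x, fc x ∂Q - ∫ x, p x ∂Q) := by
      rw [hspan p hp]
      ring
    rw [e4, mul_add]
    exact (norm_sub_le _ _).trans (add_le_add (e3 P) (e3 Q))
  have hzero : ‖∫ x, fc x ∂P - ∫ x, fc x ∂Q‖ ≤ 0 := by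
    set M : ℝ := P.real Set.univ + Q.real Set.univ with hM
    have hM0 : 0 ≤ M := add_nonneg measureReal_nonneg measureReal_nonneg
    refine le_of_forall_pos_le_add fun ε hε => ?_
    have h1 := hsmall (ε / (M + 1)) (by positivity)
    refine h1.trans ?_
    rw [zero_add, div_mul_eq_mul_div, div_le_iff₀ (by positivity)]
    nlinarith
  have h2 := norm_le_zero_iff.mp hzero
  rw [e2, e2, ← Complex.ofReal_sub] at h2
  have h3 := Complex.ofReal_eq_zero.mp h2
  linarith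

/-- the characters of the torus -/
def chX (ι : Type) : Submonoid C((ι → UnitAddCircle), ℂ) where
  carrier := {f | ∃ m : ι →₀ ℤ, ∀ x, f x = ec (pr m x)}
  one_mem' := ⟨0, fun x => by rw [pr_zero, ec_zero]; rfl⟩
  mul_mem' := by
    rintro f g ⟨m, hm⟩ ⟨m', hm'⟩
    refine ⟨m + m', fun x => ?_⟩
    rw [ContinuousMap.mul_apply, hm, hm', pr_add, ec_add]

theorem chX_star (ι : Type) : ∀ f ∈ chX ι, star f ∈ chX ι := by
  rintro f ⟨m, hm⟩
  refine ⟨-m, fun x => ?_⟩
  rw [pr_neg, ec_neg, ← hm]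
  rfl

theorem pr_single_one {ι : Type} (i : ι) (x : ι → UnitAddCircle) :
    pr (Finsupp.single i (1 : ℤ)) x = x i := by
  unfold pr
  have h : (Finsupp.single i (1 : ℤ)).sum (fun i k => k • x i) = (1 : ℤ) • x i :=
    Finsupp.sum_single_index (zero_smul ℤ _)
  rw [h, one_smul]

theorem chX_sep (ι : Type) : ∀ x y : ι → UnitAddCircle, x ≠ y → ∃ f ∈ chX ι, f x ≠ f y := by
  intro x y hxy
  obtain ⟨i, hi⟩ := Function.ne_iff.mp hxy
  refine ⟨⟨fun x => ec (pr (Finsupp.single i (1 : ℤ)) x), continuous_ec.comp (continuous_pr _)⟩,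
    ⟨Finsupp.single i (1 : ℤ), fun _ => rfl⟩, ?_⟩
  intro h
  apply hi
  have h1 : ec (pr (Finsupp.single i (1 : ℤ)) x) = ec (pr (Finsupp.single i (1 : ℤ)) y) := h
  rw [pr_single_one, pr_single_one] at h1
  exact ec_injective h1

/-- the characters of the product of two tori -/
def chZ (ι : Type) : Submonoid C((ι → UnitAddCircle) × (ι → UnitAddCircle), ℂ) where
  carrier := {f | ∃ m m' : ι →₀ ℤ, ∀ z, f z = ec (pr m z.1 + pr m' z.2)}
  one_mem' := ⟨0, 0, fun x => by rw [pr_zero, pr_zero, add_zero, ec_zero]; rfl⟩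
  mul_mem' := by
    rintro f g ⟨m, n, hm⟩ ⟨m', n', hm'⟩
    refine ⟨m + m', n + n', fun x => ?_⟩
    rw [ContinuousMap.mul_apply, hm, hm', pr_add, pr_add, ← ec_add]
    congr 1
    abel

theorem chZ_star (ι : Type) : ∀ f ∈ chZ ι, star f ∈ chZ ι := by
  rintro f ⟨m, m', hm⟩
  refine ⟨-m, -m', fun x => ?_⟩
  rw [pr_neg, pr_neg, ← neg_add, ec_neg, ← hm]
  rfl

theorem chZ_sep (ι : Type) : ∀ x y : (ι → UnitAddCircle) × (ι → UnitAddCircle), x ≠ y →
    ∃ f ∈ chZ ι, f x ≠ f y := by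
  intro x y hxy
  have hc : ∀ m m' : ι →₀ ℤ, Continuous fun z : (ι → UnitAddCircle) × (ι → UnitAddCircle) =>
      ec (pr m z.1 + pr m' z.2) := fun m m' =>
    continuous_ec.comp (((continuous_pr m).comp continuous_fst).add
      ((continuous_pr m').comp continuous_snd))
  by_cases h1 : x.1 = y.1
  · have h2 : x.2 ≠ y.2 := fun h2 => hxy (Prod.ext h1 h2)
    obtain ⟨i, hi⟩ := Function.ne_iff.mp h2
    refine ⟨⟨_, hc 0 (Finsupp.single i (1 : ℤ))⟩, ⟨0, Finsupp.single i (1 : ℤ), fun _ => rfl⟩, ?_⟩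
    intro h
    apply hi
    have h3 : ec (pr 0 x.1 + pr (Finsupp.single i (1 : ℤ)) x.2) =
        ec (pr 0 y.1 + pr (Finsupp.single i (1 : ℤ)) y.2) := h
    rw [pr_zero, pr_zero, zero_add, zero_add, pr_single_one, pr_single_one] at h3
    exact ec_injective h3
  · obtain ⟨i, hi⟩ := Function.ne_iff.mp h1
    refine ⟨⟨_, hc (Finsupp.single i (1 : ℤ)) 0⟩, ⟨Finsupp.single i (1 : ℤ), 0, fun _ => rfl⟩, ?_⟩
    intro h
    apply hi
    have h3 : ec (pr (Finsupp.single i (1 : ℤ)) x.1 + pr 0 x.2) =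
        ec (pr (Finsupp.single i (1 : ℤ)) y.1 + pr 0 y.2) := h
    rw [pr_zero, pr_zero, add_zero, add_zero, pr_single_one, pr_single_one] at h3
    exact ec_injective h3

end Pool.Agent.Lib.MP_9fe581_an.FT
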