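import Mathlib
import Pool.Agent.Lib.MP_9fe581_an.FT.Def

/-!
# Algebra of the truncated maps
-/

set_option autoImplicit false

namespace Pool.Agent.Lib.MP_9fe581_an.FT

open Finset MeasureTheory Filter
open scoped Topology

variable {ι : Type} (W : Tower ι)

theorem continuous_phi (i : ι) : Continuous (phi W i) := by
  unfold phi
  exact (continuous_pr _).add ((AddCircle.continuous_mk' 1).comp (W.cont i))

theorem continuous_T : Continuous (T W) := by
  unfold T
  exact continuous_pi fun i => (continuous_apply i).add (continuous_phi W i)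

theorem continuous_Tr (j : ℕ) : Continuous (Tr W j) := by
  unfold Tr
  refine continuous_pi fun i => ?_
  by_cases h : W.lev i < j
  · simp only [if_pos h]
    exact (continuous_apply i).comp (continuous_T W)
  · simp only [if_neg h]
    exact continuous_apply i

theorem continuous_cut (j : ℕ) : Continuous (cut W j) := by
  unfold cut
  refine continuous_pi fun i => ?_
  by_cases h : W.lev i < j
  · simp only [if_pos h]
    exact continuous_apply i
  · simp only [if_neg h]
    exact continuous_const

theorem continuous_Sp (p q j : ℕ) : Continuous (Sp W p q j) := by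
  unfold Sp
  exact (((continuous_Tr W j).iterate p).comp continuous_fst).prodMk
    (((continuous_Tr W j).iterate q).comp continuous_snd)

theorem phi_congr (i : ι) (x y : ι → UnitAddCircle) (h : ∀ l, W.lev l < W.lev i → x l = y l) :
    phi W i x = phi W i y := by
  unfold phi
  rw [W.dep i x y h, pr_congr (W.a i) x y fun l hl => h l (W.sup i l hl)]

theorem Tr_lt {j : ℕ} {i : ι} (h : W.lev i < j) (x : ι → UnitAddCircle) :
    Tr W j x i = T W x i := if_pos h

theorem Tr_ge {j : ℕ} {i : ι} (h : ¬ W.lev i < j) (x : ι → UnitAddCircle) :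
    Tr W j x i = x i := if_neg h

theorem cut_lt {j : ℕ} {i : ι} (h : W.lev i < j) (x : ι → UnitAddCircle) :
    cut W j x i = x i := if_pos h

theorem cut_ge {j : ℕ} {i : ι} (h : ¬ W.lev i < j) (x : ι → UnitAddCircle) :
    cut W j x i = 0 := if_neg h

theorem cut_T (j : ℕ) (x : ι → UnitAddCircle) : cut W j (T W x) = Tr W j (cut W j x) := by
  funext i
  by_cases h : W.lev i < j
  · rw [cut_lt W h, Tr_lt W h]
    unfold T
    rw [cut_lt W h]
    congr 1
    exact phi_congr W i _ _ fun l hl => (cut_lt W (hl.trans h) x).symm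
  · rw [cut_ge W h, Tr_ge W h, cut_ge W h]

theorem cut_Tr (j k : ℕ) (hjk : j ≤ k) (x : ι → UnitAddCircle) :
    cut W j (Tr W k x) = Tr W j (cut W j x) := by
  rw [← cut_T]
  funext i
  unfold cut Tr
  by_cases h : W.lev i < j
  · rw [if_pos h, if_pos h, if_pos (h.trans_le hjk)]
  · rw [if_neg h, if_neg h]

theorem cut_iter_T (j n : ℕ) (x : ι → UnitAddCircle) :
    cut W j ((T W)^[n] x) = (Tr W j)^[n] (cut W j x) := by
  induction n generalizing x with
  | zero => rfl
  | succ n ih => rw [Function.iterate_succ_apply, Function.iterate_succ_apply, ih, cut_T]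

theorem cut_iter_Tr (j k n : ℕ) (hjk : j ≤ k) (x : ι → UnitAddCircle) :
    cut W j ((Tr W k)^[n] x) = (Tr W j)^[n] (cut W j x) := by
  induction n generalizing x with
  | zero => rfl
  | succ n ih => rw [Function.iterate_succ_apply, Function.iterate_succ_apply, ih, cut_Tr W j k hjk]

theorem Tr_single [DecidableEq ι] (j : ℕ) (l : ι) (hl : j ≤ W.lev l + 1) (x : ι → UnitAddCircle)
    (v : UnitAddCircle) : Tr W j (x + Pi.single l v) = Tr W j x + Pi.single l v := by
  funext i
  rw [Pi.add_apply]
  unfold Tr
  by_cases h : W.lev i < j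
  · rw [if_pos h, if_pos h]
    unfold T
    have h1 : phi W i (x + Pi.single l v) = phi W i x := by
      refine phi_congr W i _ _ fun k hk => ?_
      have hkl : k ≠ l := by
        rintro rfl
        omega
      rw [Pi.add_apply, Pi.single_eq_of_ne hkl, add_zero]
    rw [h1, Pi.add_apply]
    abel
  · rw [if_neg h, if_neg h, Pi.add_apply]

theorem iter_single [DecidableEq ι] (j n : ℕ) (l : ι) (hl : j ≤ W.lev l + 1)
    (x : ι → UnitAddCircle) (v : UnitAddCircle) :
    (Tr W j)^[n] (x + Pi.single l v) = (Tr W j)^[n] x + Pi.single l v := by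
  induction n generalizing x with
  | zero => rfl
  | succ n ih => rw [Function.iterate_succ_apply, Function.iterate_succ_apply, Tr_single W j l hl, ih]

/-- the increment of `pr m` under the map truncated at `j + 1`, `m` supported on the levels `≥ j` -/
noncomputable def Phi (j : ℕ) (m : ι →₀ ℤ) (y : ι → UnitAddCircle) : UnitAddCircle :=
  m.sum fun i c => if W.lev i = j then c • phi W i y else 0

/-- the real part -/
noncomputable def Psi (j : ℕ) (m : ι →₀ ℤ) (y : ι → UnitAddCircle) : ℝ :=
  m.sum fun i c => if W.lev i = j then (c : ℝ) * W.ψ i y else 0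

/-- the degree -/
noncomputable def Deg (j : ℕ) (m : ι →₀ ℤ) (l : ι) : ℝ :=
  m.sum fun i c => if W.lev i = j then (c : ℝ) * W.a i l else 0

theorem continuous_Phi (j : ℕ) (m : ι →₀ ℤ) : Continuous (Phi W j m) := by
  unfold Phi Finsupp.sum
  refine continuous_finsetSum _ fun i _ => ?_
  by_cases h : W.lev i = j
  · simp only [if_pos h]
    exact (continuous_phi W i).zsmul _
  · simp only [if_neg h]
    exact continuous_const

theorem continuous_Psi (j : ℕ) (m : ι →₀ ℤ) : Continuous (Psi W j m) := by
  unfold Psi Finsupp.sum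
  refine continuous_finsetSum _ fun i _ => ?_
  by_cases h : W.lev i = j
  · simp only [if_pos h]
    exact continuous_const.mul (W.cont i)
  · simp only [if_neg h]
    exact continuous_const

theorem pr_Tr_succ (j : ℕ) (m : ι →₀ ℤ) (hm : ∀ i, m i ≠ 0 → j ≤ W.lev i) (x : ι → UnitAddCircle) :
    pr m (Tr W (j + 1) x) = pr m x + Phi W j m (cut W j x) := by
  unfold pr Phi
  rw [← Finsupp.sum_add]
  refine Finsupp.sum_congr fun i hi => ?_
  have hji := hm i (Finsupp.mem_support_iff.mp hi)
  unfold Tr
  by_cases h : W.lev i = j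
  · rw [if_pos (by omega), if_pos h]
    unfold T
    rw [smul_add]
    congr 2
    refine phi_congr W i _ _ fun l hl => ?_
    unfold cut
    rw [if_pos (by omega)]
  · rw [if_neg (by omega), if_neg h, add_zero]

theorem pr_iter (j n : ℕ) (m : ι →₀ ℤ) (hm : ∀ i, m i ≠ 0 → j ≤ W.lev i) (x : ι → UnitAddCircle) :
    pr m ((Tr W (j + 1))^[n] x) =
      pr m x + ∑ u ∈ Finset.range n, Phi W j m ((Tr W j)^[u] (cut W j x)) := by
  induction n with
  | zero => simp
  | succ n ih =>
    rw [Function.iterate_succ_apply', pr_Tr_succ W j m hm, ih, Finset.sum_range_succ,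
      cut_iter_Tr W j (j + 1) n (by omega), add_assoc]

theorem Phi_single [DecidableEq ι] (j : ℕ) (m : ι →₀ ℤ) (l : ι) (y : ι → UnitAddCircle) (t : ℝ) :
    Phi W j m (y + Pi.single l (t : UnitAddCircle)) = Phi W j m y +
      ((Deg W j m l * t + (Psi W j m (y + Pi.single l (t : UnitAddCircle)) - Psi W j m y) : ℝ) :
        UnitAddCircle) := by
  have h : ∀ i, phi W i (y + Pi.single l (t : UnitAddCircle)) = phi W i y +
      (((W.a i l : ℝ) * t + (W.ψ i (y + Pi.single l (t : UnitAddCircle)) - W.ψ i y) : ℝ) :
        UnitAddCircle) := by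
    intro i
    unfold phi
    rw [pr_add_right, pr_single]
    rw [← zsmul_eq_mul, AddCircle.coe_add, AddCircle.coe_zsmul, AddCircle.coe_sub]
    abel
  unfold Phi Deg Psi Finsupp.sum
  simp only [h]
  rw [Finset.sum_mul, ← Finset.sum_sub_distrib, ← Finset.sum_add_distrib, ]
  have h2 : ∀ (s : Finset ι) (f : ι → ℝ), ((∑ i ∈ s, f i : ℝ) : UnitAddCircle) = ∑ i ∈ s, (f i : UnitAddCircle) := by
    intro s f
    exact map_sum (QuotientAddGroup.mk' (AddSubgroup.zmultiples (1 : ℝ))) f s
  rw [h2, ← Finset.sum_add_distrib]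
  refine Finset.sum_congr rfl fun i _ => ?_
  by_cases hi : W.lev i = j
  · simp only [if_pos hi]
    rw [smul_add]
    congr 1
    rw [← AddCircle.coe_zsmul]
    congr 1
    rw [zsmul_eq_mul]
    ring
  · simp only [if_neg hi]
    simp

end Pool.Agent.Lib.MP_9fe581_an.FT
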