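import Mathlib
import Pool.Agent.Lib.MP_9fe581_an.FT.Def

/-!
# Fourier coefficients of the fibre measures

`ρ` a finite measure on `Y × R/Z`, invariant under `(y, w) ↦ (S y, w + Ψ y)`. The conditional expectation `F` of `e(w)` given `y`
satisfies `F ∘ S = e(Ψ) F` almost everywhere.
-/

set_option autoImplicit false

namespace Pool.Agent.Lib.MP_9fe581_an.FT

open Finset MeasureTheory
open scoped ComplexConjugate

private theorem fib_int {Y : Type} [MeasurableSpace Y] (ν : Measure Y) [IsFiniteMeasure ν] (f : Y → ℂ)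
    (hf : Measurable f) (C : ℝ) (hC : ∀ y, ‖f y‖ ≤ C) : Integrable f ν :=
  Integrable.of_bound hf.aestronglyMeasurable C (Filter.Eventually.of_forall hC)

theorem fib {Y : Type} [MeasurableSpace Y] (S : Y → Y) (hS : Measurable S) (Ψ : Y → UnitAddCircle)
    (hΨ : Measurable Ψ) (ρ : Measure (Y × UnitAddCircle)) [IsFiniteMeasure ρ]
    (hρ : MeasurePreserving (fun z : Y × UnitAddCircle => (S z.1, z.2 + Ψ z.1)) ρ ρ) :
    ∃ F : Y → ℂ, Measurable F ∧ (∀ y, ‖F y‖ ≤ 1) ∧ MeasurePreserving S ρ.fst ρ.fst ∧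
      (∀ G : Y → ℂ, Measurable G → (∃ C : ℝ, ∀ y, ‖G y‖ ≤ C) →
        ∫ z, ec z.2 * G z.1 ∂ρ = ∫ y, F y * G y ∂ρ.fst) ∧
      (∀ᵐ y ∂ρ.fst, F (S y) = ec (Ψ y) * F y) := by
  have hec : Measurable ec := continuous_ec.measurable
  set F : Y → ℂ := fun y => ∫ w, ec w ∂(ρ.condKernel y) with hF
  have hFm : Measurable F := by
    have h : StronglyMeasurable (fun y => ∫ w, (fun z : Y × UnitAddCircle => ec z.2) (y, w) ∂(ρ.condKernel y)) :=
      MeasureTheory.StronglyMeasurable.integral_kernel_prod_right' (κ := ρ.condKernel)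
        (hec.comp measurable_snd).stronglyMeasurable
    exact h.measurable
  have hF1 : ∀ y, ‖F y‖ ≤ 1 := by
    intro y
    have h := norm_integral_le_of_norm_le_const (μ := ρ.condKernel y) (f := ec) (C := 1)
      (Filter.Eventually.of_forall fun w => (norm_ec w).le)
    simpa using h
  have hfst : MeasurePreserving S ρ.fst ρ.fst := by
    refine ⟨hS, ?_⟩
    have h1 : Measure.map S ρ.fst = Measure.map (fun z : Y × UnitAddCircle => S z.1) ρ := by
      rw [Measure.fst, Measure.map_map hS measurable_fst]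
      rfl
    have h2 : Measure.map (fun z : Y × UnitAddCircle => S z.1) ρ =
        Measure.map Prod.fst (Measure.map (fun z : Y × UnitAddCircle => (S z.1, z.2 + Ψ z.1)) ρ) := by
      rw [Measure.map_map measurable_fst hρ.measurable]
      rfl
    rw [h1, h2, hρ.map_eq]
    rfl
  have hG : ∀ G : Y → ℂ, Measurable G → (∃ C : ℝ, ∀ y, ‖G y‖ ≤ C) →
      ∫ z, ec z.2 * G z.1 ∂ρ = ∫ y, F y * G y ∂ρ.fst := by
    rintro G hGm ⟨C, hC⟩
    have hint : Integrable (fun z : Y × UnitAddCircle => ec z.2 * G z.1) ρ := by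
      refine fib_int ρ _ ((hec.comp measurable_snd).mul (hGm.comp measurable_fst)) C fun z => ?_
      rw [norm_mul, norm_ec, one_mul]
      exact hC z.1
    rw [← Measure.integral_condKernel hint]
    refine integral_congr_ae (Filter.Eventually.of_forall fun y => ?_)
    change ∫ w, ec w * G y ∂(ρ.condKernel y) = F y * G y
    rw [integral_mul_const]
  refine ⟨F, hFm, hF1, hfst, hG, ?_⟩
  -- the relation
  have hFS : Measurable (fun y => F (S y)) := hFm.comp hS
  have heΨ : Measurable (fun y => ec (Ψ y)) := hec.comp hΨ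
  have hconj : Measurable (fun y => conj (F (S y))) := Complex.continuous_conj.measurable.comp hFS
  have hA : ∫ y, F y * (ec (Ψ y) * conj (F (S y))) ∂ρ.fst = ∫ y, F y * conj (F y) ∂ρ.fst := by
    rw [← hG (fun y => ec (Ψ y) * conj (F (S y))) (heΨ.mul hconj)
      ⟨1, fun y => by rw [norm_mul, norm_ec, one_mul, RCLike.norm_conj]; exact hF1 _⟩]
    rw [← hG (fun y => conj (F y)) (Complex.continuous_conj.measurable.comp hFm)
      ⟨1, fun y => by rw [RCLike.norm_conj]; exact hF1 _⟩]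
    have hgm : Measurable (fun z : Y × UnitAddCircle => ec z.2 * conj (F z.1)) :=
      (hec.comp measurable_snd).mul (Complex.continuous_conj.measurable.comp (hFm.comp measurable_fst))
    have h1 : ∫ z, ec z.2 * conj (F z.1) ∂ρ =
        ∫ z, (fun z : Y × UnitAddCircle => ec z.2 * conj (F z.1)) (S z.1, z.2 + Ψ z.1) ∂ρ := by
      conv_lhs => rw [← hρ.map_eq]
      rw [integral_map hρ.measurable.aemeasurable hgm.aestronglyMeasurable]
    rw [h1]
    refine integral_congr_ae (Filter.Eventually.of_forall fun z => ?_)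
    change ec z.2 * (ec (Ψ z.1) * conj (F (S z.1))) = ec (z.2 + Ψ z.1) * conj (F (S z.1))
    rw [ec_add, mul_assoc]
  have hnn : ∀ y, F y * conj (F y) = ((‖F y‖ ^ 2 : ℝ) : ℂ) := by
    intro y
    rw [Complex.mul_conj, Complex.normSq_eq_norm_sq]
  have hI1 : Integrable (fun y => F y * (ec (Ψ y) * conj (F (S y)))) ρ.fst :=
    fib_int _ _ (hFm.mul (heΨ.mul hconj)) 1 fun y => by
      rw [norm_mul, norm_mul, norm_ec, one_mul, RCLike.norm_conj]
      exact mul_le_one₀ (hF1 _) (norm_nonneg _) (hF1 _)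
  have hA' : ∫ y, (F y * (ec (Ψ y) * conj (F (S y)))).re ∂ρ.fst = ∫ y, ‖F y‖ ^ 2 ∂ρ.fst := by
    have h2 : ∫ y, F y * conj (F y) ∂ρ.fst = ((∫ y, ‖F y‖ ^ 2 ∂ρ.fst : ℝ) : ℂ) := by
      rw [← integral_complex_ofReal]
      exact integral_congr_ae (Filter.Eventually.of_forall fun y => hnn y)
    have h3 := congrArg Complex.re (hA.trans h2)
    rw [Complex.ofReal_re] at h3
    rw [← h3]
    exact integral_re hI1
  have hn2 : Measurable (fun y => ‖F y‖ ^ 2) := hFm.norm.pow_const 2
  have hI2 : Integrable (fun y => ‖F y‖ ^ 2) ρ.fst :=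
    Integrable.of_bound hn2.aestronglyMeasurable 1 (Filter.Eventually.of_forall fun y => by
      rw [Real.norm_of_nonneg (by positivity)]
      exact pow_le_one₀ (norm_nonneg _) (hF1 y))
  have hI3 : Integrable (fun y => ‖F (S y)‖ ^ 2) ρ.fst :=
    Integrable.of_bound ((hFS.norm.pow_const 2)).aestronglyMeasurable 1
      (Filter.Eventually.of_forall fun y => by
      rw [Real.norm_of_nonneg (by positivity)]
      exact pow_le_one₀ (norm_nonneg _) (hF1 _))
  have hA3 : ∫ y, ‖F (S y)‖ ^ 2 ∂ρ.fst = ∫ y, ‖F y‖ ^ 2 ∂ρ.fst := by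
    conv_rhs => rw [← hfst.map_eq]
    rw [integral_map hS.aemeasurable hn2.aestronglyMeasurable]
  have hD : ∀ y, ‖F (S y) - ec (Ψ y) * F y‖ ^ 2 =
      ‖F (S y)‖ ^ 2 + ‖F y‖ ^ 2 - 2 * (F y * (ec (Ψ y) * conj (F (S y)))).re := by
    intro y
    rw [← Complex.normSq_eq_norm_sq, Complex.normSq_sub, Complex.normSq_eq_norm_sq,
      Complex.normSq_eq_norm_sq, norm_mul, norm_ec, one_mul]
    congr 2
    rw [← Complex.conj_re]
    congr 1
    simp only [map_mul, Complex.conj_conj]
    ring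
  have hzero : ∫ y, ‖F (S y) - ec (Ψ y) * F y‖ ^ 2 ∂ρ.fst = 0 := by
    simp_rw [hD]
    have hI4 : Integrable (fun y => 2 * (F y * (ec (Ψ y) * conj (F (S y)))).re) ρ.fst :=
      (hI1.re).const_mul 2
    have hadd : Integrable (fun y => ‖F (S y)‖ ^ 2 + ‖F y‖ ^ 2) ρ.fst := hI3.add hI2
    rw [integral_sub hadd hI4, integral_add hI3 hI2, integral_const_mul, hA3, hA']
    ring
  have hI5 : Integrable (fun y => ‖F (S y) - ec (Ψ y) * F y‖ ^ 2) ρ.fst := by
    refine Integrable.of_bound (((hFS.sub (heΨ.mul hFm)).norm.pow_const 2)).aestronglyMeasurable 4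
      (Filter.Eventually.of_forall fun y => ?_)
    rw [Real.norm_of_nonneg (by positivity)]
    have h1 : ‖F (S y) - ec (Ψ y) * F y‖ ≤ 2 := by
      refine (norm_sub_le _ _).trans ?_
      rw [norm_mul, norm_ec, one_mul]
      linarith [hF1 y, hF1 (S y)]
    nlinarith [norm_nonneg (F (S y) - ec (Ψ y) * F y)]
  have h := (integral_eq_zero_iff_of_nonneg (fun y => by positivity) hI5).mp hzero
  filter_upwards [h] with y hy
  have h1 : ‖F (S y) - ec (Ψ y) * F y‖ ^ 2 = 0 := hy
  have h2 : ‖F (S y) - ec (Ψ y) * F y‖ = 0 := by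
    exact pow_eq_zero_iff (two_ne_zero) |>.mp h1
  exact sub_eq_zero.mp (norm_eq_zero.mp h2)

end Pool.Agent.Lib.MP_9fe581_an.FT
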