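import Mathlib
import Pool.Agent.Lib.MP_9fe581_an.FT.Fib

/-!
# The extension step

`(Y, S)` with a continuous family `R_s` commuting with `S`, such that every finite `S`-invariant measure is `R_s`-invariant;
`Ψ ∘ R_s = Ψ + δ s + H ∘ R_s - H` with `δ ≠ 0`, `|H ∘ R_s - H| ≤ L |s|`. Then `∫ e(w) G(y) dρ = 0` for every measure `ρ` on
`Y × R/Z` which is invariant under `(y, w) ↦ (S y, w + Ψ y)`.
-/

set_option autoImplicit false

namespace Pool.Agent.Lib.MP_9fe581_an.FT

open Finset MeasureTheory Filter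
open scoped ComplexConjugate Topology

/-- continuity of the action in the mean -/
theorem mean_cont {Y : Type} [TopologicalSpace Y] [CompactSpace Y] [TopologicalSpace.MetrizableSpace Y]
    [MeasurableSpace Y] [BorelSpace Y] (ν : Measure Y) [IsFiniteMeasure ν] (R : ℝ → Y → Y)
    (hRs : ∀ y, Continuous fun s => R s y) (hR0 : ∀ y, R 0 y = y)
    (hR : ∀ s, MeasurePreserving (R s) ν ν) (F : Y → ℂ) (hF : Measurable F) (hF1 : ∀ y, ‖F y‖ ≤ 1) :
    Tendsto (fun s => ∫ y, ‖F (R s y) - F y‖ ∂ν) (𝓝 0) (𝓝 0) := by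
  let _ : MetricSpace Y := TopologicalSpace.metrizableSpaceMetric Y
  have hFint : Integrable F ν := Integrable.of_bound hF.aestronglyMeasurable 1 (Eventually.of_forall hF1)
  rw [Metric.tendsto_nhds]
  intro ε hε
  obtain ⟨G, hG1, hG2⟩ := hFint.exists_boundedContinuous_integral_sub_le (show 0 < ε / 4 by positivity)
  -- the continuous function
  have hGt : Tendsto (fun s => ∫ y, ‖G (R s y) - G y‖ ∂ν) (𝓝 0) (𝓝 0) := by
    have h0 : (0 : ℝ) = ∫ _y : Y, (0 : ℝ) ∂ν := by simp
    rw [h0]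
    refine tendsto_integral_filter_of_dominated_convergence (fun _ => 2 * ‖G‖) ?_ ?_
      (integrable_const _) ?_
    · refine Eventually.of_forall fun s => ?_
      exact (((G.continuous.measurable.comp (hR s).measurable).sub G.continuous.measurable).norm).aestronglyMeasurable
    · refine Eventually.of_forall fun s => Eventually.of_forall fun y => ?_
      rw [norm_norm]
      refine (norm_sub_le _ _).trans ?_
      linarith [G.norm_coe_le_norm (R s y), G.norm_coe_le_norm y]
    · refine Eventually.of_forall fun y => ?_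
      have h1 : Tendsto (fun s => G (R s y)) (𝓝 0) (𝓝 (G (R 0 y))) :=
        ((G.continuous.comp (hRs y)).tendsto 0)
      rw [hR0] at h1
      have h2 := (h1.sub_const (G y)).norm
      simpa using h2
  have hev := (Metric.tendsto_nhds.mp hGt) (ε / 4) (by positivity)
  filter_upwards [hev] with s hs
  have hGm : Measurable G := G.continuous.measurable
  have hGint : Integrable G ν := hG2
  have hFR : Measurable fun y => F (R s y) := hF.comp (hR s).measurable
  have hGR : Measurable fun y => G (R s y) := hGm.comp (hR s).measurable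
  have hb : ∀ y, ‖G y‖ ≤ ‖G‖ := G.norm_coe_le_norm
  have i1 : Integrable (fun y => ‖F (R s y) - G (R s y)‖) ν :=
    (Integrable.of_bound (hFR.sub hGR).aestronglyMeasurable (1 + ‖G‖) (Eventually.of_forall fun y =>
      (norm_sub_le _ _).trans (add_le_add (hF1 _) (hb _)))).norm
  have i2 : Integrable (fun y => ‖G (R s y) - G y‖) ν :=
    (Integrable.of_bound (hGR.sub hGm).aestronglyMeasurable (‖G‖ + ‖G‖) (Eventually.of_forall fun y =>
      (norm_sub_le _ _).trans (add_le_add (hb _) (hb _)))).norm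
  have i3 : Integrable (fun y => ‖F y - G y‖) ν := (hFint.sub hGint).norm
  have e1 : ∫ y, ‖F (R s y) - G (R s y)‖ ∂ν = ∫ y, ‖F y - G y‖ ∂ν := by
    have hm : Measurable fun y => ‖F y - G y‖ := (hF.sub hGm).norm
    conv_rhs => rw [← (hR s).map_eq]
    rw [integral_map (hR s).measurable.aemeasurable hm.aestronglyMeasurable]
  have h3 : ∫ y, ‖F (R s y) - F y‖ ∂ν ≤
      ∫ y, (‖F (R s y) - G (R s y)‖ + ‖G (R s y) - G y‖ + ‖F y - G y‖) ∂ν := by
    refine integral_mono ?_ ((i1.add i2).add i3) fun y => ?_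
    · exact (Integrable.of_bound (hFR.sub hF).aestronglyMeasurable 2 (Eventually.of_forall fun y => by
        refine (norm_sub_le _ _).trans ?_
        linarith [hF1 (R s y), hF1 y])).norm
    · have h4 : F (R s y) - F y = (F (R s y) - G (R s y)) + (G (R s y) - G y) + -(F y - G y) := by ring
      change ‖F (R s y) - F y‖ ≤ ‖F (R s y) - G (R s y)‖ + ‖G (R s y) - G y‖ + ‖F y - G y‖
      rw [h4]
      refine (norm_add₃_le).trans ?_
      rw [norm_neg]
  have i12 : Integrable (fun y => ‖F (R s y) - G (R s y)‖ + ‖G (R s y) - G y‖) ν := i1.add i2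
  rw [integral_add i12 i3, integral_add i1 i2, e1] at h3
  rw [Real.dist_eq, sub_zero] at hs ⊢
  have h5 := (abs_lt.mp hs).2
  rw [abs_of_nonneg (integral_nonneg fun y => norm_nonneg _)]
  linarith

/-- sum of the increments along the orbit -/
private noncomputable def gsum {Y : Type} (S : Y → Y) (g : Y → ℝ) (m : ℕ) (y : Y) : ℝ :=
  ∑ i ∈ Finset.range m, g (S^[i] y)

private theorem coc {Y : Type} [MeasurableSpace Y] (S : Y → Y) (ν : Measure Y)
    (hS : MeasurePreserving S ν ν) (R : Y → Y) (hR : MeasurePreserving R ν ν)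
    (hRS : ∀ y, R (S y) = S (R y)) (Ψ : Y → UnitAddCircle) (g : Y → ℝ)
    (hg : ∀ y, Ψ (R y) = Ψ y + (g y : UnitAddCircle)) (F : Y → ℂ)
    (hF : ∀ᵐ y ∂ν, F (S y) = ec (Ψ y) * F y) (m : ℕ) :
    ∀ᵐ y ∂ν, F (R (S^[m] y)) * conj (F (S^[m] y)) =
      ec (gsum S g m y : UnitAddCircle) * (F (R y) * conj (F y)) := by
  induction m with
  | zero =>
    refine Eventually.of_forall fun y => ?_
    unfold gsum
    simp [ec_zero]
  | succ m ih =>
    have h1 : ∀ᵐ y ∂ν, F (S (S^[m] y)) = ec (Ψ (S^[m] y)) * F (S^[m] y) :=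
      (hS.iterate m).quasiMeasurePreserving.ae hF
    have h2 : ∀ᵐ y ∂ν, F (S (R (S^[m] y))) = ec (Ψ (R (S^[m] y))) * F (R (S^[m] y)) :=
      (hS.iterate m).quasiMeasurePreserving.ae (hR.quasiMeasurePreserving.ae hF)
    filter_upwards [ih, h1, h2] with y h3 h4 h5
    rw [Function.iterate_succ_apply', hRS, h4, h5, hg, ec_add]
    have h6 : gsum S g (m + 1) y = gsum S g m y + g (S^[m] y) := by
      unfold gsum
      rw [Finset.sum_range_succ]
    rw [h6, AddCircle.coe_add, ec_add, map_mul]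
    have h7 : ec (Ψ (S^[m] y)) * conj (ec (Ψ (S^[m] y))) = 1 := by
      rw [Complex.mul_conj, Complex.normSq_eq_norm_sq, norm_ec]
      norm_num
    calc ec (Ψ (S^[m] y)) * ec (g (S^[m] y) : UnitAddCircle) * F (R (S^[m] y)) *
          (conj (ec (Ψ (S^[m] y))) * conj (F (S^[m] y)))
        = (ec (Ψ (S^[m] y)) * conj (ec (Ψ (S^[m] y)))) * ec (g (S^[m] y) : UnitAddCircle) *
          (F (R (S^[m] y)) * conj (F (S^[m] y))) := by ring
      _ = ec (gsum S g m y : UnitAddCircle) * ec (g (S^[m] y) : UnitAddCircle) *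
          (F (R y) * conj (F y)) := by
          rw [h7, h3]
          ring

theorem stepA {Y : Type} [TopologicalSpace Y] [CompactSpace Y] [TopologicalSpace.MetrizableSpace Y]
    [MeasurableSpace Y] [BorelSpace Y] (S : Y → Y) (hS : Continuous S) (R : ℝ → Y → Y)
    (hRc : ∀ s, Continuous (R s)) (hRs : ∀ y, Continuous fun s => R s y) (hR0 : ∀ y, R 0 y = y)
    (hRS : ∀ s y, R s (S y) = S (R s y))
    (hinv : ∀ ν : Measure Y, IsFiniteMeasure ν → MeasurePreserving S ν ν →
      ∀ s, MeasurePreserving (R s) ν ν)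
    (Ψ : Y → UnitAddCircle) (hΨ : Continuous Ψ) (H : Y → ℝ) (hH : Continuous H) (δ L : ℝ)
    (hδ : δ ≠ 0)
    (hg : ∀ s y, Ψ (R s y) = Ψ y + ((δ * s + (H (R s y) - H y) : ℝ) : UnitAddCircle))
    (hL : ∀ s y, |H (R s y) - H y| ≤ L * |s|)
    (ρ : Measure (Y × UnitAddCircle)) [IsFiniteMeasure ρ]
    (hρ : MeasurePreserving (fun z : Y × UnitAddCircle => (S z.1, z.2 + Ψ z.1)) ρ ρ)
    (G : C(Y, ℂ)) : ∫ z, ec z.2 * G z.1 ∂ρ = 0 := by
  obtain ⟨F, hFm, hF1, hSν, hFG, hFS⟩ := fib S hS.measurable Ψ hΨ.measurable ρ hρ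
  set ν : Measure Y := ρ.fst with hν
  have hRν : ∀ s, MeasurePreserving (R s) ν ν := hinv ν inferInstance hSν
  -- reduction to `F = 0`
  suffices hmain : ∫ y, ‖F y‖ ^ 2 ∂ν = 0 by
    have hi : Integrable (fun y => ‖F y‖ ^ 2) ν :=
      Integrable.of_bound (hFm.norm.pow_const 2).aestronglyMeasurable 1 (Eventually.of_forall fun y => by
        rw [Real.norm_of_nonneg (by positivity)]
        exact pow_le_one₀ (norm_nonneg _) (hF1 y))
    have h := (integral_eq_zero_iff_of_nonneg (fun y => by positivity) hi).mp hmain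
    rw [hFG G G.continuous.measurable ⟨‖G‖, G.norm_coe_le_norm⟩]
    have h0 : (0 : ℂ) = ∫ _y : Y, (0 : ℂ) ∂ν := by simp
    rw [h0]
    refine integral_congr_ae ?_
    filter_upwards [h] with y hy
    have h1 : ‖F y‖ ^ 2 = 0 := hy
    have h2 : F y = 0 := norm_eq_zero.mp (pow_eq_zero_iff two_ne_zero |>.mp h1)
    rw [h2, zero_mul]
  -- the weighted measure
  set dens : Y → NNReal := fun y => ⟨‖F y‖ ^ 2, by positivity⟩ with hdens
  have hdm : Measurable dens := by
    refine Measurable.subtype_mk ?_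
    exact hFm.norm.pow_const 2
  set ν' : Measure Y := ν.withDensity (fun y => (dens y : ENNReal)) with hν'
  have hd1 : ∀ y, dens y ≤ 1 := fun y => by
    rw [hdens]
    exact_mod_cast (pow_le_one₀ (norm_nonneg _) (hF1 y) : ‖F y‖ ^ 2 ≤ 1)
  have hfin : IsFiniteMeasure ν' := by
    refine isFiniteMeasure_withDensity ?_
    refine ne_top_of_le_ne_top (measure_ne_top ν Set.univ) ?_
    calc ∫⁻ y, (dens y : ENNReal) ∂ν ≤ ∫⁻ _y, 1 ∂ν :=
          lintegral_mono fun y => ENNReal.coe_le_one_iff.mpr (hd1 y)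
      _ = ν Set.univ := by simp
  have hdS : ∀ᵐ y ∂ν, dens (S y) = dens y := by
    filter_upwards [hFS] with y hy
    apply NNReal.eq
    change ‖F (S y)‖ ^ 2 = ‖F y‖ ^ 2
    rw [hy, norm_mul, norm_ec, one_mul]
  have hSν' : MeasurePreserving S ν' ν' := by
    refine ⟨hS.measurable, ?_⟩
    ext A hA
    rw [Measure.map_apply hS.measurable hA, hν', withDensity_apply _ (hS.measurable hA),
      withDensity_apply _ hA]
    have h1 : ∫⁻ y in S ⁻¹' A, (dens y : ENNReal) ∂ν = ∫⁻ y in S ⁻¹' A, (dens (S y) : ENNReal) ∂ν := by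
      refine lintegral_congr_ae ?_
      refine ae_restrict_of_ae ?_
      filter_upwards [hdS] with y hy
      rw [hy]
    rw [h1]
    exact hSν.setLIntegral_comp_preimage hA hdm.coe_nnreal_ennreal
  have hRν' : ∀ s, MeasurePreserving (R s) ν' ν' := hinv ν' hfin hSν'
  have hint' : ∀ f : Y → ℝ, ∫ y, f y ∂ν' = ∫ y, ‖F y‖ ^ 2 * f y ∂ν := by
    intro f
    rw [hν', integral_withDensity_eq_integral_smul hdm]
    rfl
  set V : ℝ := ∫ y, ‖F y‖ ^ 2 ∂ν with hV
  have hV' : ∫ _y, (1 : ℝ) ∂ν' = V := by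
    rw [hint']
    simp [hV]
  have hV0 : 0 ≤ V := integral_nonneg fun y => by positivity
  -- the increments
  set g : ℝ → Y → ℝ := fun s y => δ * s + (H (R s y) - H y) with hgdef
  have hgc : ∀ s, Continuous (g s) := fun s => continuous_const.add ((hH.comp (hRc s)).sub hH)
  set K : ℝ := |δ| + |L| with hK
  have hδ0 : 0 < |δ| := abs_pos.mpr hδ
  have hK0 : 0 < K := by
    rw [hK]
    positivity
  have hgb : ∀ s y, |g s y| ≤ K * |s| := by
    intro s y
    rw [hgdef, hK]
    refine (abs_add_le _ _).trans ?_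
    rw [abs_mul, add_mul]
    refine add_le_add le_rfl ((hL s y).trans ?_)
    exact mul_le_mul_of_nonneg_right (le_abs_self L) (abs_nonneg s)
  have hgi : ∀ s, Integrable (g s) ν' := fun s =>
    Integrable.of_bound (hgc s).measurable.aestronglyMeasurable (K * |s|)
      (Eventually.of_forall fun y => by rw [Real.norm_eq_abs]; exact hgb s y)
  have hgmean : ∀ s, ∫ y, g s y ∂ν' = δ * s * V := by
    intro s
    obtain ⟨CH, hCH⟩ : ∃ CH, ∀ y, ‖H y‖ ≤ CH := by
      obtain ⟨C, hC⟩ := (isCompact_range hH.norm).bddAbove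
      exact ⟨C, fun y => hC ⟨y, rfl⟩⟩
    have j1 : Integrable H ν' := Integrable.of_bound hH.measurable.aestronglyMeasurable CH
      (Eventually.of_forall hCH)
    have j2 : Integrable (fun y => H (R s y)) ν' :=
      Integrable.of_bound (hH.comp (hRc s)).measurable.aestronglyMeasurable CH
      (Eventually.of_forall fun y => hCH _)
    have j3 : Integrable (fun y => H (R s y) - H y) ν' := j2.sub j1
    have e1 : ∫ y, H (R s y) ∂ν' = ∫ y, H y ∂ν' := by
      conv_rhs => rw [← (hRν' s).map_eq]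
      rw [integral_map (hRc s).measurable.aemeasurable hH.measurable.aestronglyMeasurable]
    have e2 : ∫ y, g s y ∂ν' = ∫ _y, (δ * s) ∂ν' + ∫ y, (H (R s y) - H y) ∂ν' := by
      rw [hgdef]
      exact integral_add (integrable_const _) j3
    have e3 : ∫ _y, (δ * s) ∂ν' = δ * s * V := by
      rw [← hV', ← integral_const_mul]
      simp
    rw [e2, e3, integral_sub j2 j1, e1, sub_self, add_zero]
  -- the key inequality
  have key : ∀ (s : ℝ) (m : ℕ), (m : ℝ) * (K * |s|) ≤ 1 / 2 →
      4 * (m * (|δ| * |s|) * V) ≤ 2 * ∫ y, ‖F (R s y) - F y‖ ∂ν := by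
    intro s m hsm
    have hcoc := coc S ν hSν (R s) (hRν s) (hRS s) Ψ (g s) (hg s) F hFS m
    -- `|F|^2` is invariant
    have hFm2 : ∀ᵐ y ∂ν, ‖F (S^[m] y)‖ ^ 2 = ‖F y‖ ^ 2 := by
      clear hcoc
      induction m with
      | zero => exact Eventually.of_forall fun y => rfl
      | succ m ih =>
        have h0 : (m : ℝ) * (K * |s|) ≤ 1 / 2 := by
          refine le_trans ?_ hsm
          push_cast
          have : 0 ≤ K * |s| := by positivity
          nlinarith
        have h1 : ∀ᵐ y ∂ν, F (S (S^[m] y)) = ec (Ψ (S^[m] y)) * F (S^[m] y) :=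
          (hSν.iterate m).quasiMeasurePreserving.ae hFS
        filter_upwards [ih h0, h1] with y h2 h3
        rw [Function.iterate_succ_apply', h3, norm_mul, norm_ec, one_mul, h2]
    set gm : Y → ℝ := gsum S (g s) m with hgm
    have hgmc : Continuous gm := by
      rw [hgm]
      unfold gsum
      exact continuous_finsetSum _ fun i _ => (hgc s).comp (hS.iterate i)
    have hgmb : ∀ y, |gm y| ≤ 1 / 2 := by
      intro y
      refine le_trans ?_ hsm
      rw [hgm]
      unfold gsum
      refine (Finset.abs_sum_le_sum_abs _ _).trans ?_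
      refine (Finset.sum_le_sum fun i _ => hgb s _).trans ?_
      rw [Finset.sum_const, Finset.card_range, nsmul_eq_mul]
    have hpt : ∀ᵐ y ∂ν, 4 * (‖F y‖ ^ 2 * |gm y|) ≤
        ‖F (R s y) - F y‖ + ‖F (R s (S^[m] y)) - F (S^[m] y)‖ := by
      filter_upwards [hcoc, hFm2] with y h1 h2
      have h3 : 4 * |gm y| ≤ ‖ec (gm y : UnitAddCircle) - 1‖ := norm_ec_sub_one _ (hgmb y)
      have h4 : (ec (gm y : UnitAddCircle) - 1) * ((‖F y‖ ^ 2 : ℝ) : ℂ) =
          -(ec (gm y : UnitAddCircle) * ((F (R s y) - F y) * conj (F y))) +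
            (F (R s (S^[m] y)) - F (S^[m] y)) * conj (F (S^[m] y)) := by
        have h5 : ((‖F y‖ ^ 2 : ℝ) : ℂ) = F y * conj (F y) := by
          rw [Complex.mul_conj, Complex.normSq_eq_norm_sq]
        have h6 : F (S^[m] y) * conj (F (S^[m] y)) = F y * conj (F y) := by
          rw [Complex.mul_conj, Complex.mul_conj, Complex.normSq_eq_norm_sq, Complex.normSq_eq_norm_sq, h2]
        have h7 : (F (R s (S^[m] y)) - F (S^[m] y)) * conj (F (S^[m] y)) =
            ec (gm y : UnitAddCircle) * (F (R s y) * conj (F y)) - F y * conj (F y) := by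
          rw [sub_mul, h1, h6]
        rw [h5, h7]
        ring
      have h8 : ‖(ec (gm y : UnitAddCircle) - 1) * ((‖F y‖ ^ 2 : ℝ) : ℂ)‖ =
          ‖F y‖ ^ 2 * ‖ec (gm y : UnitAddCircle) - 1‖ := by
        rw [norm_mul, Complex.norm_real, Real.norm_of_nonneg (by positivity), mul_comm]
      have h9 : ‖(ec (gm y : UnitAddCircle) - 1) * ((‖F y‖ ^ 2 : ℝ) : ℂ)‖ ≤
          ‖F (R s y) - F y‖ + ‖F (R s (S^[m] y)) - F (S^[m] y)‖ := by
        rw [h4]
        refine (norm_add_le _ _).trans (add_le_add ?_ ?_)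
        · rw [norm_neg, norm_mul, norm_ec, one_mul, norm_mul, RCLike.norm_conj]
          exact mul_le_of_le_one_right (norm_nonneg _) (hF1 y)
        · rw [norm_mul, RCLike.norm_conj]
          exact mul_le_of_le_one_right (norm_nonneg _) (hF1 _)
      rw [h8] at h9
      refine le_trans ?_ h9
      have h10 : 0 ≤ ‖F y‖ ^ 2 := by positivity
      calc 4 * (‖F y‖ ^ 2 * |gm y|) = ‖F y‖ ^ 2 * (4 * |gm y|) := by ring
        _ ≤ ‖F y‖ ^ 2 * ‖ec (gm y : UnitAddCircle) - 1‖ := mul_le_mul_of_nonneg_left h3 h10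
    -- integrate
    have hFR : Measurable fun y => F (R s y) := hFm.comp (hRc s).measurable
    have hdiff : Measurable fun y => ‖F (R s y) - F y‖ := (hFR.sub hFm).norm
    have hdb : ∀ y, ‖F (R s y) - F y‖ ≤ 2 := fun y => by
      refine (norm_sub_le _ _).trans ?_
      linarith [hF1 (R s y), hF1 y]
    have k1 : Integrable (fun y => ‖F (R s y) - F y‖) ν :=
      Integrable.of_bound hdiff.aestronglyMeasurable 2 (Eventually.of_forall fun y => by
        rw [norm_norm]; exact hdb y)
    have k2 : Integrable (fun y => ‖F (R s (S^[m] y)) - F (S^[m] y)‖) ν :=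
      Integrable.of_bound (hdiff.comp (hS.iterate m).measurable).aestronglyMeasurable 2
        (Eventually.of_forall fun y => by rw [norm_norm]; exact hdb _)
    have e4 : ∫ y, ‖F (R s (S^[m] y)) - F (S^[m] y)‖ ∂ν = ∫ y, ‖F (R s y) - F y‖ ∂ν := by
      conv_rhs => rw [← (hSν.iterate m).map_eq]
      rw [integral_map (hS.iterate m).measurable.aemeasurable hdiff.aestronglyMeasurable]
    have k3' : Measurable (fun y => ‖F y‖ ^ 2 * |gm y|) :=
      (hFm.norm.pow_const 2).mul hgmc.abs.measurable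
    have k3'' : Integrable (fun y => ‖F y‖ ^ 2 * |gm y|) ν :=
      Integrable.of_bound k3'.aestronglyMeasurable 1 (Eventually.of_forall fun y => by
        have h0 : 0 ≤ ‖F y‖ ^ 2 * |gm y| := by positivity
        rw [Real.norm_of_nonneg h0]
        have h1 : ‖F y‖ ^ 2 ≤ 1 := pow_le_one₀ (norm_nonneg _) (hF1 y)
        have h2 := hgmb y
        have h3 := abs_nonneg (gm y)
        calc ‖F y‖ ^ 2 * |gm y| ≤ 1 * |gm y| := mul_le_mul_of_nonneg_right h1 h3
          _ ≤ 1 := by linarith)
    have k3 : Integrable (fun y => 4 * (‖F y‖ ^ 2 * |gm y|)) ν := k3''.const_mul 4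
    have h11 : ∫ y, 4 * (‖F y‖ ^ 2 * |gm y|) ∂ν ≤
        ∫ y, (‖F (R s y) - F y‖ + ‖F (R s (S^[m] y)) - F (S^[m] y)‖) ∂ν :=
      integral_mono_ae k3 (k1.add k2) hpt
    rw [integral_add k1 k2, e4, integral_const_mul, ← hint' (fun y => |gm y|)] at h11
    have h12 : ∫ y, gm y ∂ν' = m * (δ * s * V) := by
      have h13 : ∀ i, ∫ y, g s (S^[i] y) ∂ν' = δ * s * V := by
        intro i
        rw [← hgmean s]
        conv_rhs => rw [← (hSν'.iterate i).map_eq]
        rw [integral_map (hS.iterate i).measurable.aemeasurable (hgc s).measurable.aestronglyMeasurable]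
      rw [hgm]
      unfold gsum
      rw [integral_finsetSum]
      · simp_rw [h13]
        rw [Finset.sum_const, Finset.card_range, nsmul_eq_mul]
      · intro i _
        exact Integrable.of_bound ((hgc s).comp (hS.iterate i)).measurable.aestronglyMeasurable (K * |s|)
          (Eventually.of_forall fun y => by rw [Real.norm_eq_abs]; exact hgb s _)
    have h14 : |∫ y, gm y ∂ν'| ≤ ∫ y, |gm y| ∂ν' := abs_integral_le_integral_abs
    rw [h12, abs_mul, abs_mul, abs_mul, abs_of_nonneg hV0, Nat.abs_cast] at h14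
    linarith
  -- choose `s = 1 / (2 K m)`
  have hε := mean_cont ν R hRs hR0 hRν F hFm hF1
  have hs : Tendsto (fun m : ℕ => 1 / (2 * K * ((m : ℝ) + 1))) atTop (𝓝 0) := by
    have h1 : Tendsto (fun m : ℕ => 1 / (2 * K) * (1 / ((m : ℝ) + 1))) atTop (𝓝 (1 / (2 * K) * 0)) :=
      tendsto_one_div_add_atTop_nhds_zero_nat.const_mul _
    rw [mul_zero] at h1
    refine h1.congr fun m => ?_
    rw [one_div_mul_one_div]
  have hlim := hε.comp hs
  have hbound : ∀ m : ℕ, |δ| / K * V ≤
      ∫ y, ‖F (R (1 / (2 * K * ((m : ℝ) + 1))) y) - F y‖ ∂ν := by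
    intro m
    set s : ℝ := 1 / (2 * K * ((m : ℝ) + 1)) with hsdef
    have hm0 : (0 : ℝ) < (m : ℝ) + 1 := by positivity
    have hs0 : 0 < s := by positivity
    have hcond : ((m + 1 : ℕ) : ℝ) * (K * |s|) = 1 / 2 := by
      rw [abs_of_pos hs0, hsdef]
      push_cast
      field_simp
    have h1 := key s (m + 1) hcond.le
    have h2 : ((m + 1 : ℕ) : ℝ) * (|δ| * |s|) = |δ| / K * (1 / 2) := by
      rw [← hcond]
      field_simp
    rw [h2] at h1
    linarith
  have hfinal : |δ| / K * V ≤ 0 := by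
    refine ge_of_tendsto hlim (Eventually.of_forall fun m => ?_)
    exact hbound m
  have hpos : 0 < |δ| / K := by positivity
  have hV0' : V ≤ 0 := by
    by_contra hcon
    push Not at hcon
    have := mul_pos hpos hcon
    linarith
  exact le_antisymm hV0' hV0

end Pool.Agent.Lib.MP_9fe581_an.FT
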