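import Mathlib
import Pool.Agent.Lib.MP_9fe581_an.FT.Dens
import Pool.Agent.Lib.MP_9fe581_an.FT.Alg
import Pool.Agent.Lib.MP_9fe581_an.FT.Step

/-!
# The induction on the level
-/

set_option autoImplicit false

namespace Pool.Agent.Lib.MP_9fe581_an.FT

open Finset MeasureTheory Filter
open scoped Topology

variable {ι : Type} (W : Tower ι)

theorem metr (ι : Type) [Countable ι] :
    TopologicalSpace.MetrizableSpace ((ι → UnitAddCircle) × (ι → UnitAddCircle)) := by
  infer_instance

theorem continuous_single_coe [DecidableEq ι] (l : ι) (a : ℝ) :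
    Continuous fun s : ℝ => (Pi.single l ((a * s : ℝ) : UnitAddCircle) : ι → UnitAddCircle) := by
  refine continuous_pi fun i => ?_
  by_cases h : i = l
  · subst h
    simp only [Pi.single_eq_same]
    exact (AddCircle.continuous_mk' 1).comp (continuous_const.mul continuous_id)
  · simp only [Pi.single_eq_of_ne h]
    exact continuous_const

theorem Rw_continuous [DecidableEq ι] (l : ι) (a b : ℕ) (s : ℝ) : Continuous (Rw l a b s) := by
  unfold Rw
  exact (continuous_fst.add continuous_const).prodMk (continuous_snd.add continuous_const)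

theorem Rw_continuous' [DecidableEq ι] (l : ι) (a b : ℕ)
    (z : (ι → UnitAddCircle) × (ι → UnitAddCircle)) : Continuous fun s => Rw l a b s z := by
  unfold Rw
  exact (continuous_const.add (continuous_single_coe l a)).prodMk
    (continuous_const.add (continuous_single_coe l b))

theorem Rw_zero [DecidableEq ι] (l : ι) (a b : ℕ) (z : (ι → UnitAddCircle) × (ι → UnitAddCircle)) :
    Rw l a b 0 z = z := by
  unfold Rw
  simp

theorem Rw_Sp [DecidableEq ι] (p q j : ℕ) (l : ι) (hl : j ≤ W.lev l + 1) (a b : ℕ) (s : ℝ)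
    (z : (ι → UnitAddCircle) × (ι → UnitAddCircle)) :
    Rw l a b s (Sp W p q j z) = Sp W p q j (Rw l a b s z) := by
  unfold Rw Sp
  simp only
  rw [iter_single W j p l hl, iter_single W j q l hl]

theorem continuous_ch (m m' : ι →₀ ℤ) :
    Continuous fun z : (ι → UnitAddCircle) × (ι → UnitAddCircle) => ec (pr m z.1 + pr m' z.2) :=
  continuous_ec.comp (((continuous_pr m).comp continuous_fst).add
    ((continuous_pr m').comp continuous_snd))

/-- the hypothesis `HH` gives invariance under the weighted circle actions -/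
theorem rw_inv [Countable ι] [DecidableEq ι] (p q j : ℕ) (h : HH W p q j) (l : ι) (hl : W.lev l = j)
    (ν : Measure ((ι → UnitAddCircle) × (ι → UnitAddCircle))) (hfin : IsFiniteMeasure ν)
    (hν : MeasurePreserving (Sp W p q (j + 1)) ν ν) (s : ℝ) :
    MeasurePreserving (Rw l (p ^ (j + 1)) (q ^ (j + 1)) s) ν ν := by
  have hm := (Rw_continuous l (p ^ (j + 1)) (q ^ (j + 1)) s).measurable
  refine ⟨hm, ?_⟩
  refine meas_ext (chZ ι) (chZ_star ι) (chZ_sep ι) _ _ ?_
  rintro f ⟨m, m', hf⟩
  rw [integral_map hm.aemeasurable f.continuous.measurable.aestronglyMeasurable]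
  have h1 : ∀ z, f (Rw l (p ^ (j + 1)) (q ^ (j + 1)) s z) =
      ec (((((p : ℤ) ^ (j + 1) * m l + (q : ℤ) ^ (j + 1) * m' l : ℤ) : ℝ) * s : ℝ) : UnitAddCircle) *
        ec (pr m z.1 + pr m' z.2) := by
    intro z
    rw [hf, ← ec_add]
    congr 1
    unfold Rw
    simp only
    rw [pr_add_right, pr_add_right, pr_single, pr_single, ← AddCircle.coe_zsmul, ← AddCircle.coe_zsmul]
    have h2 : ((((p : ℤ) ^ (j + 1) * m l + (q : ℤ) ^ (j + 1) * m' l : ℤ) : ℝ) * s : ℝ) =
        m l • (((p ^ (j + 1) : ℕ) : ℝ) * s) + m' l • (((q ^ (j + 1) : ℕ) : ℝ) * s) := by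
      rw [zsmul_eq_mul, zsmul_eq_mul]
      push_cast
      ring
    rw [h2, AddCircle.coe_add]
    abel
  simp_rw [h1]
  rw [integral_const_mul]
  by_cases hc : (p : ℤ) ^ (j + 1) * m l + (q : ℤ) ^ (j + 1) * m' l = 0
  · rw [hc]
    have h3 : ec ((((0 : ℤ) : ℝ) * s : ℝ) : UnitAddCircle) = 1 := by
      rw [Int.cast_zero, zero_mul, AddCircle.coe_zero, ec_zero]
    rw [h3, one_mul]
    exact integral_congr_ae (Eventually.of_forall fun z => (hf z).symm)
  · have h3 := h ν hfin hν m m' ⟨l, hl, hc⟩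
    rw [h3, mul_zero]
    rw [← h3]
    exact integral_congr_ae (Eventually.of_forall fun z => (hf z).symm)

/-- the integer degree -/
noncomputable def DegZ (j : ℕ) (m : ι →₀ ℤ) (l : ι) : ℤ :=
  m.sum fun i c => if W.lev i = j then c * W.a i l else 0

theorem Deg_eq (j : ℕ) (m : ι →₀ ℤ) (l : ι) : Deg W j m l = ((DegZ W j m l : ℤ) : ℝ) := by
  unfold Deg DegZ Finsupp.sum
  push_cast
  refine Finset.sum_congr rfl fun i _ => ?_
  split_ifs
  · rfl
  · simp

theorem DegZ_add (j : ℕ) (m m' : ι →₀ ℤ) (l : ι) : DegZ W j (m + m') l = DegZ W j m l + DegZ W j m' l := by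
  classical
  unfold DegZ
  refine Finsupp.sum_add_index' (fun i => ?_) (fun i a b => ?_)
  · split_ifs <;> simp
  · split_ifs
    · ring
    · simp

theorem DegZ_smul (j : ℕ) (k : ℤ) (m : ι →₀ ℤ) (l : ι) : DegZ W j (k • m) l = k * DegZ W j m l := by
  classical
  unfold DegZ
  rw [Finsupp.sum_smul_index']
  · unfold Finsupp.sum
    rw [Finset.mul_sum]
    refine Finset.sum_congr rfl fun i _ => ?_
    beta_reduce
    split_ifs
    · rw [smul_eq_mul]
      ring
    · simp
  · intro i
    split_ifs <;> simp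

theorem DegZ_filter (j : ℕ) (m : ι →₀ ℤ) (l : ι) :
    DegZ W j m l = (m.filter (fun i => W.lev i = j)).sum fun i c => c * W.a i l := by
  classical
  unfold DegZ Finsupp.sum
  rw [Finsupp.support_filter, Finset.sum_filter]
  refine Finset.sum_congr rfl fun i _ => ?_
  beta_reduce
  by_cases h : W.lev i = j
  · rw [if_pos h, if_pos h, Finsupp.filter_apply_pos (fun i => W.lev i = j) _ h]
  · rw [if_neg h, if_neg h]

/-- the real sum at level `0` -/
theorem Phi_zero (m : ι →₀ ℤ) (y : ι → UnitAddCircle) :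
    Phi W 0 m y = ((Psi W 0 m 0 : ℝ) : UnitAddCircle) := by
  unfold Phi Psi Finsupp.sum
  have h2 : ∀ (s : Finset ι) (f : ι → ℝ), ((∑ i ∈ s, f i : ℝ) : UnitAddCircle) = ∑ i ∈ s, (f i : UnitAddCircle) := by
    intro s f
    exact map_sum (QuotientAddGroup.mk' (AddSubgroup.zmultiples (1 : ℝ))) f s
  rw [h2]
  refine Finset.sum_congr rfl fun i _ => ?_
  beta_reduce
  by_cases hi : W.lev i = 0
  · rw [if_pos hi, if_pos hi]
    have h3 : W.ψ i y = W.ψ i 0 := W.dep i y 0 fun l hl => absurd hl (by omega)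
    have h4 : pr (W.a i) y = 0 := by
      have h5 : pr (W.a i) y = pr (W.a i) 0 := by
        refine pr_congr _ _ _ fun l hl => ?_
        have := W.sup i l hl
        omega
      rw [h5]
      unfold pr Finsupp.sum
      refine Finset.sum_eq_zero fun k _ => ?_
      exact smul_zero _
    unfold phi
    rw [h4, zero_add, h3, ← AddCircle.coe_zsmul, zsmul_eq_mul]
  · rw [if_neg hi, if_neg hi, AddCircle.coe_zero]

theorem Psi_eq (j : ℕ) (m : ι →₀ ℤ) (y : ι → UnitAddCircle) :
    Psi W j m y = (m.filter (fun i => W.lev i = j)).sum fun i c => (c : ℝ) * W.ψ i y := by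
  classical
  unfold Psi Finsupp.sum
  rw [Finsupp.support_filter, Finset.sum_filter]
  refine Finset.sum_congr rfl fun i _ => ?_
  beta_reduce
  by_cases h : W.lev i = j
  · rw [if_pos h, if_pos h, Finsupp.filter_apply_pos (fun i => W.lev i = j) _ h]
  · rw [if_neg h, if_neg h]

theorem Psi_add (j : ℕ) (m m' : ι →₀ ℤ) (y : ι → UnitAddCircle) :
    Psi W j (m + m') y = Psi W j m y + Psi W j m' y := by
  classical
  unfold Psi
  refine Finsupp.sum_add_index' (fun i => ?_) (fun i a b => ?_)
  · split_ifs <;> simp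
  · split_ifs
    · push_cast
      ring
    · simp

theorem Psi_smul (j : ℕ) (k : ℤ) (m : ι →₀ ℤ) (y : ι → UnitAddCircle) :
    Psi W j (k • m) y = k * Psi W j m y := by
  classical
  unfold Psi
  rw [Finsupp.sum_smul_index']
  · unfold Finsupp.sum
    rw [Finset.mul_sum]
    refine Finset.sum_congr rfl fun i _ => ?_
    beta_reduce
    split_ifs
    · rw [smul_eq_mul]
      push_cast
      ring
    · simp
  · intro i
    split_ifs <;> simp

/-- the base of the induction -/
theorem HH_zero [Countable ι] (p q : ℕ) : HH W p q 0 := by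
  intro ρ hfin hρ m m' ⟨l, hl, hne⟩
  set f : (ι → UnitAddCircle) × (ι → UnitAddCircle) → ℂ := fun z => ec (pr m z.1 + pr m' z.2) with hf
  set r : ℝ := p * Psi W 0 m 0 + q * Psi W 0 m' 0 with hr
  have h1 : ∀ z, f (Sp W p q 1 z) = ec ((r : ℝ) : UnitAddCircle) * f z := by
    intro z
    rw [hf]
    simp only
    rw [← ec_add]
    congr 1
    unfold Sp
    simp only
    have e1 : ∀ (n : ℕ) (k : ι →₀ ℤ) (x : ι → UnitAddCircle), pr k ((Tr W 1)^[n] x) =
        pr k x + ((n * Psi W 0 k 0 : ℝ) : UnitAddCircle) := by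
      intro n k x
      rw [pr_iter W 0 n k (fun i _ => Nat.zero_le _)]
      congr 1
      simp_rw [Phi_zero]
      rw [Finset.sum_const, Finset.card_range, ← AddCircle.coe_nsmul, nsmul_eq_mul]
    rw [e1, e1, hr, AddCircle.coe_add]
    abel
  -- the number `r` is not an integer
  have hr0 : ((r : ℝ) : UnitAddCircle) ≠ 0 := by
    intro h0
    rw [AddCircle.coe_eq_zero_iff] at h0
    obtain ⟨k, hk⟩ := h0
    set c : ι →₀ ℤ := ((p : ℤ) • m + (q : ℤ) • m').filter (fun i => W.lev i = 0) with hc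
    have hcne : c ≠ 0 := by
      intro h0
      have h2 : c l = 0 := by rw [h0]; rfl
      rw [hc, Finsupp.filter_apply_pos (fun i => W.lev i = 0) _ hl] at h2
      apply hne
      simpa [pow_one] using h2
    have hcs : ∀ i, c i ≠ 0 → W.lev i = 0 := by
      intro i hi
      by_contra hcon
      apply hi
      rw [hc, Finsupp.filter_apply_neg (fun i => W.lev i = 0) _ hcon]
    apply W.base c hcne hcs k
    rw [hc, ← Psi_eq, Psi_add, Psi_smul, Psi_smul]
    rw [zsmul_eq_mul, mul_one] at hk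
    rw [hk, hr]
    push_cast
    ring
  have hne1 : ec ((r : ℝ) : UnitAddCircle) ≠ 1 := fun h => hr0 (ec_eq_one h)
  have hint : ∫ z, f (Sp W p q 1 z) ∂ρ = ∫ z, f z ∂ρ := by
    have hfm : Measurable f := (continuous_ch m m').measurable
    conv_rhs => rw [← hρ.map_eq]
    rw [integral_map hρ.measurable.aemeasurable hfm.aestronglyMeasurable]
  simp_rw [h1] at hint
  rw [integral_const_mul] at hint
  have h5 : (ec ((r : ℝ) : UnitAddCircle) - 1) * ∫ z, f z ∂ρ = 0 := by
    rw [sub_mul, one_mul, hint, sub_self]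
  rcases mul_eq_zero.mp h5 with h6 | h6
  · exact absurd (sub_eq_zero.mp h6) hne1
  · exact h6

/-- the real part is Lipschitz in the directions of the level below -/
theorem Psi_lip [DecidableEq ι] (j : ℕ) (m : ι →₀ ℤ) (l : ι) (hl : W.lev l = j) :
    ∃ L : ℝ, 0 ≤ L ∧ ∀ (y : ι → UnitAddCircle) (t : ℝ),
      |Psi W (j + 1) m (y + Pi.single l (t : UnitAddCircle)) - Psi W (j + 1) m y| ≤ L * |t| := by
  have h1 : ∀ i, ∃ L : ℝ, W.lev i = j + 1 → ∀ (y : ι → UnitAddCircle) (t : ℝ),
      |W.ψ i (y + Pi.single l (t : UnitAddCircle)) - W.ψ i y| ≤ L * |t| := by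
    intro i
    by_cases hi : W.lev i = j + 1
    · obtain ⟨L, hL⟩ := W.lip i l (by omega)
      refine ⟨L, fun _ y t => hL y _ t (fun k hk => ?_) ?_⟩
      · rw [Pi.add_apply, Pi.single_eq_of_ne hk, add_zero]
      · rw [Pi.add_apply, Pi.single_eq_same]
    · exact ⟨0, fun h => absurd h hi⟩
  choose L hL using h1
  refine ⟨∑ i ∈ m.support, |(m i : ℝ)| * |L i|, by positivity, fun y t => ?_⟩
  unfold Psi Finsupp.sum
  rw [← Finset.sum_sub_distrib, Finset.sum_mul]
  refine (Finset.abs_sum_le_sum_abs _ _).trans (Finset.sum_le_sum fun i _ => ?_)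
  beta_reduce
  by_cases hi : W.lev i = j + 1
  · rw [if_pos hi, if_pos hi, ← mul_sub, abs_mul, mul_assoc]
    refine mul_le_mul_of_nonneg_left ((hL i hi y t).trans ?_) (abs_nonneg _)
    exact mul_le_mul_of_nonneg_right (le_abs_self _) (abs_nonneg _)
  · rw [if_neg hi, if_neg hi, sub_zero, abs_zero]
    positivity

end Pool.Agent.Lib.MP_9fe581_an.FT
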