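import Mathlib
import Pool.Agent.Lib.MP_9fe581_an.FT.Ind

/-!
# The induction step
-/

set_option autoImplicit false

namespace Pool.Agent.Lib.MP_9fe581_an.FT

open Finset MeasureTheory Filter
open scoped Topology

variable {ι : Type} (W : Tower ι)

/-- two copies of the torus -/
abbrev ZZ (ι : Type) : Type := (ι → UnitAddCircle) × (ι → UnitAddCircle)

theorem borel_ZZ [Countable ι] : BorelSpace (ZZ ι × UnitAddCircle) := Prod.borelSpace

theorem Phi_filter (j : ℕ) (m : ι →₀ ℤ) (y : ι → UnitAddCircle) :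
    Phi W j (m.filter (fun i => j ≤ W.lev i)) y = Phi W j m y := by
  classical
  unfold Phi Finsupp.sum
  rw [Finsupp.support_filter, Finset.sum_filter]
  refine Finset.sum_congr rfl fun i _ => ?_
  beta_reduce
  by_cases h : W.lev i = j
  · rw [if_pos h.ge, if_pos h, if_pos h, Finsupp.filter_apply_pos (fun i => j ≤ W.lev i) _ h.ge]
  · rw [if_neg h, if_neg h]
    split_ifs <;> rfl

theorem pr_filter (j : ℕ) (m : ι →₀ ℤ) (x : ι → UnitAddCircle) :
    pr m x = pr (m.filter (fun i => j ≤ W.lev i)) x +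
      pr (m.filter (fun i => ¬ j ≤ W.lev i)) (cut W j x) := by
  classical
  have h1 : pr (m.filter (fun i => ¬ j ≤ W.lev i)) (cut W j x) =
      pr (m.filter (fun i => ¬ j ≤ W.lev i)) x := by
    refine pr_congr _ _ _ fun i hi => ?_
    refine cut_lt W ?_ x
    by_contra hcon
    apply hi
    exact Finsupp.filter_apply_neg (fun i => ¬ j ≤ W.lev i) _ (by simpa using hcon)
  rw [h1, ← pr_add, Finsupp.filter_add_filter_not]

/-- sum of `Phi` along an orbit -/
noncomputable def sP (j n : ℕ) (m : ι →₀ ℤ) (x : ι → UnitAddCircle) : UnitAddCircle :=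
  ∑ u ∈ Finset.range n, Phi W j m ((Tr W j)^[u] x)

/-- sum of `Psi` along an orbit -/
noncomputable def sH (j n : ℕ) (m : ι →₀ ℤ) (x : ι → UnitAddCircle) : ℝ :=
  ∑ u ∈ Finset.range n, Psi W j m ((Tr W j)^[u] x)

theorem continuous_sP (j n : ℕ) (m : ι →₀ ℤ) : Continuous (sP W j n m) := by
  unfold sP
  exact continuous_finsetSum _ fun u _ => (continuous_Phi W j m).comp ((continuous_Tr W j).iterate u)

theorem continuous_sH (j n : ℕ) (m : ι →₀ ℤ) : Continuous (sH W j n m) := by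
  unfold sH
  exact continuous_finsetSum _ fun u _ => (continuous_Psi W j m).comp ((continuous_Tr W j).iterate u)

theorem coe_sum (s : Finset ℕ) (f : ℕ → ℝ) :
    ((∑ i ∈ s, f i : ℝ) : UnitAddCircle) = ∑ i ∈ s, (f i : UnitAddCircle) :=
  map_sum (QuotientAddGroup.mk' (AddSubgroup.zmultiples (1 : ℝ))) f s

theorem sP_single [DecidableEq ι] (j n : ℕ) (l : ι) (hl : j ≤ W.lev l + 1) (m : ι →₀ ℤ)
    (x : ι → UnitAddCircle) (t : ℝ) :
    sP W j n m (x + Pi.single l (t : UnitAddCircle)) = sP W j n m x +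
      ((n * (Deg W j m l * t) + (sH W j n m (x + Pi.single l (t : UnitAddCircle)) - sH W j n m x) : ℝ) :
        UnitAddCircle) := by
  unfold sP sH
  simp_rw [iter_single W j _ l hl]
  simp_rw [Phi_single]
  rw [Finset.sum_add_distrib]
  congr 1
  rw [← coe_sum]
  congr 1
  rw [Finset.sum_add_distrib, Finset.sum_sub_distrib, Finset.sum_const, Finset.card_range, nsmul_eq_mul]

theorem sH_lip [DecidableEq ι] (j n : ℕ) (l : ι) (hl : j ≤ W.lev l + 1) (m : ι →₀ ℤ) (L : ℝ)
    (hL : ∀ (y : ι → UnitAddCircle) (t : ℝ),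
        |Psi W j m (y + Pi.single l (t : UnitAddCircle)) - Psi W j m y| ≤ L * |t|)
    (x : ι → UnitAddCircle) (t : ℝ) :
    |sH W j n m (x + Pi.single l (t : UnitAddCircle)) - sH W j n m x| ≤ n * (L * |t|) := by
  unfold sH
  rw [← Finset.sum_sub_distrib]
  refine (Finset.abs_sum_le_sum_abs _ _).trans ?_
  have h4 : ∀ u ∈ Finset.range n, |Psi W j m ((Tr W j)^[u] (x + Pi.single l (t : UnitAddCircle))) -
      Psi W j m ((Tr W j)^[u] x)| ≤ L * |t| := by
    intro u _
    rw [iter_single W j _ l hl]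
    exact hL _ _
  refine (Finset.sum_le_sum h4).trans (le_of_eq ?_)
  rw [Finset.sum_const, Finset.card_range, nsmul_eq_mul]

/-- the cocycle of the product -/
noncomputable def bP (j p q : ℕ) (m m' : ι →₀ ℤ) (z : ZZ ι) : UnitAddCircle :=
  sP W j p m z.1 + sP W j q m' z.2

/-- its real part -/
noncomputable def bH (j p q : ℕ) (m m' : ι →₀ ℤ) (z : ZZ ι) : ℝ :=
  sH W j p m z.1 + sH W j q m' z.2

theorem continuous_bP (j p q : ℕ) (m m' : ι →₀ ℤ) : Continuous (bP W j p q m m') := by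
  unfold bP
  exact ((continuous_sP W j p m).comp continuous_fst).add ((continuous_sP W j q m').comp continuous_snd)

theorem continuous_bH (j p q : ℕ) (m m' : ι →₀ ℤ) : Continuous (bH W j p q m m') := by
  unfold bH
  exact ((continuous_sH W j p m).comp continuous_fst).add ((continuous_sH W j q m').comp continuous_snd)

theorem bP_Rw [DecidableEq ι] (j p q a b : ℕ) (l : ι) (hl : j ≤ W.lev l + 1) (m m' : ι →₀ ℤ)
    (s : ℝ) (z : ZZ ι) :
    bP W j p q m m' (Rw l a b s z) = bP W j p q m m' z +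
      (((p * (Deg W j m l * a) + q * (Deg W j m' l * b)) * s +
        (bH W j p q m m' (Rw l a b s z) - bH W j p q m m' z) : ℝ) : UnitAddCircle) := by
  have h1 : bP W j p q m m' (Rw l a b s z) =
      sP W j p m (z.1 + Pi.single l (((a : ℝ) * s : ℝ) : UnitAddCircle)) +
      sP W j q m' (z.2 + Pi.single l (((b : ℝ) * s : ℝ) : UnitAddCircle)) := rfl
  have h2 : bH W j p q m m' (Rw l a b s z) =
      sH W j p m (z.1 + Pi.single l (((a : ℝ) * s : ℝ) : UnitAddCircle)) +
      sH W j q m' (z.2 + Pi.single l (((b : ℝ) * s : ℝ) : UnitAddCircle)) := rfl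
  have h3 : bP W j p q m m' z = sP W j p m z.1 + sP W j q m' z.2 := rfl
  have h4 : bH W j p q m m' z = sH W j p m z.1 + sH W j q m' z.2 := rfl
  rw [h1, h2, h3, h4, sP_single W j p l hl, sP_single W j q l hl]
  set A := sH W j p m (z.1 + Pi.single l (((a : ℝ) * s : ℝ) : UnitAddCircle)) with hA
  set B := sH W j q m' (z.2 + Pi.single l (((b : ℝ) * s : ℝ) : UnitAddCircle)) with hB
  have h5 : ((p * (Deg W j m l * a) + q * (Deg W j m' l * b)) * s +
      (A + B - (sH W j p m z.1 + sH W j q m' z.2)) : ℝ) =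
      (p * (Deg W j m l * (a * s)) + (A - sH W j p m z.1)) +
      (q * (Deg W j m' l * (b * s)) + (B - sH W j q m' z.2)) := by ring
  rw [h5, add_add_add_comm]
  congr 1

theorem bH_lip [DecidableEq ι] (j p q a b : ℕ) (l : ι) (hl : j ≤ W.lev l + 1) (m m' : ι →₀ ℤ)
    (L L' : ℝ)
    (hL : ∀ (y : ι → UnitAddCircle) (t : ℝ),
        |Psi W j m (y + Pi.single l (t : UnitAddCircle)) - Psi W j m y| ≤ L * |t|)
    (hL' : ∀ (y : ι → UnitAddCircle) (t : ℝ),
        |Psi W j m' (y + Pi.single l (t : UnitAddCircle)) - Psi W j m' y| ≤ L' * |t|)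
    (s : ℝ) (z : ZZ ι) :
    |bH W j p q m m' (Rw l a b s z) - bH W j p q m m' z| ≤ (p * (L * a) + q * (L' * b)) * |s| := by
  have h2 : bH W j p q m m' (Rw l a b s z) =
      sH W j p m (z.1 + Pi.single l (((a : ℝ) * s : ℝ) : UnitAddCircle)) +
      sH W j q m' (z.2 + Pi.single l (((b : ℝ) * s : ℝ) : UnitAddCircle)) := rfl
  have h4 : bH W j p q m m' z = sH W j p m z.1 + sH W j q m' z.2 := rfl
  rw [h2, h4]
  have e3 := sH_lip W j p l hl m L hL z.1 ((a : ℝ) * s)
  have e4 := sH_lip W j q l hl m' L' hL' z.2 ((b : ℝ) * s)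
  rw [abs_mul, Nat.abs_cast] at e3 e4
  rw [add_sub_add_comm]
  refine (abs_add_le _ _).trans ((add_le_add e3 e4).trans (le_of_eq ?_))
  ring

/-- the projection -/
noncomputable def bPr (j : ℕ) (m m' : ι →₀ ℤ) (z : ZZ ι) : ZZ ι × UnitAddCircle :=
  ((cut W j z.1, cut W j z.2),
    pr (m.filter (fun i => j ≤ W.lev i)) z.1 + pr (m'.filter (fun i => j ≤ W.lev i)) z.2)

theorem continuous_bPr (j : ℕ) (m m' : ι →₀ ℤ) : Continuous (bPr W j m m') := by
  unfold bPr
  exact (((continuous_cut W j).comp continuous_fst).prodMk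
      ((continuous_cut W j).comp continuous_snd)).prodMk
      (((continuous_pr _).comp continuous_fst).add ((continuous_pr _).comp continuous_snd))

/-- the extended map -/
noncomputable def bS (j p q : ℕ) (m m' : ι →₀ ℤ) (z : ZZ ι × UnitAddCircle) : ZZ ι × UnitAddCircle :=
  (Sp W p q j z.1, z.2 + bP W j p q m m' z.1)

theorem continuous_bS (j p q : ℕ) (m m' : ι →₀ ℤ) : Continuous (bS W j p q m m') := by
  unfold bS
  exact ((continuous_Sp W p q j).comp continuous_fst).prodMk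
      (continuous_snd.add ((continuous_bP W j p q m m').comp continuous_fst))

theorem bPr_Sp (j p q : ℕ) (m m' : ι →₀ ℤ) (z : ZZ ι) :
    bPr W j m m' (Sp W p q (j + 1) z) = bS W j p q m m' (bPr W j m m' z) := by
  have hf : ∀ (k : ι →₀ ℤ) (i : ι), (k.filter (fun i => j ≤ W.lev i)) i ≠ 0 → j ≤ W.lev i := by
    intro k i hi
    by_contra hcon
    apply hi
    rw [Finsupp.filter_apply_neg (fun i => j ≤ W.lev i) _ hcon]
  refine Prod.ext ?_ ?_
  · refine Prod.ext ?_ ?_
    · exact cut_iter_Tr W j (j + 1) p (by omega) z.1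
    · exact cut_iter_Tr W j (j + 1) q (by omega) z.2
  · change pr (m.filter (fun i => j ≤ W.lev i)) ((Tr W (j + 1))^[p] z.1) +
      pr (m'.filter (fun i => j ≤ W.lev i)) ((Tr W (j + 1))^[q] z.2) =
      (pr (m.filter (fun i => j ≤ W.lev i)) z.1 + pr (m'.filter (fun i => j ≤ W.lev i)) z.2) +
      (sP W j p m (cut W j z.1) + sP W j q m' (cut W j z.2))
    rw [pr_iter W j p _ (hf m), pr_iter W j q _ (hf m')]
    simp_rw [Phi_filter]
    unfold sP
    abel

/-- the induction step -/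
theorem HH_succ [Countable ι] (p q j : ℕ) (h : HH W p q j) : HH W p q (j + 1) := by
  classical
  have hBo : BorelSpace (ZZ ι × UnitAddCircle) := borel_ZZ
  intro ρ hfin hρ m m' ⟨l0, hl0, hne⟩
  -- the direction
  set c : ι →₀ ℤ := (((p : ℤ) ^ (j + 2)) • m + ((q : ℤ) ^ (j + 2)) • m').filter
    (fun i => W.lev i = j + 1) with hc
  have hcne : c ≠ 0 := by
    intro h0
    have h2 : c l0 = 0 := by rw [h0]; rfl
    rw [hc, Finsupp.filter_apply_pos (fun i => W.lev i = j + 1) _ hl0] at h2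
    apply hne
    simpa using h2
  have hcs : ∀ i, c i ≠ 0 → W.lev i = j + 1 := by
    intro i hi
    by_contra hcon
    apply hi
    rw [hc, Finsupp.filter_apply_neg (fun i => W.lev i = j + 1) _ hcon]
  obtain ⟨l, hl, hdeg⟩ := W.deg j c hcne hcs
  rw [hc, ← DegZ_filter, DegZ_add, DegZ_smul, DegZ_smul] at hdeg
  have hδ0 : (p * (Deg W (j + 1) m l * ((p ^ (j + 1) : ℕ) : ℝ)) +
      q * (Deg W (j + 1) m' l * ((q ^ (j + 1) : ℕ) : ℝ)) : ℝ) ≠ 0 := by
    rw [Deg_eq, Deg_eq]
    intro h0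
    apply hdeg
    have h1 : (((p : ℤ) ^ (j + 2) * DegZ W (j + 1) m l +
        (q : ℤ) ^ (j + 2) * DegZ W (j + 1) m' l : ℤ) : ℝ) = 0 := by
      rw [← h0]
      push_cast
      ring
    exact_mod_cast h1
  obtain ⟨L, _, hL⟩ := Psi_lip W j m l hl
  obtain ⟨L', _, hL'⟩ := Psi_lip W j m' l hl
  have hPc := continuous_bPr W (j + 1) m m'
  set ρ' : Measure (ZZ ι × UnitAddCircle) := Measure.map (bPr W (j + 1) m m') ρ with hρ'
  have hSm : Measurable (bS W (j + 1) p q m m') := (continuous_bS W (j + 1) p q m m').measurable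
  have hρ'inv : MeasurePreserving (bS W (j + 1) p q m m') ρ' ρ' := by
    refine ⟨hSm, ?_⟩
    rw [hρ', Measure.map_map hSm hPc.measurable]
    have h1 : bS W (j + 1) p q m m' ∘ bPr W (j + 1) m m' = bPr W (j + 1) m m' ∘ Sp W p q (j + 2) := by
      funext z
      exact (bPr_Sp W (j + 1) p q m m' z).symm
    rw [h1, ← Measure.map_map hPc.measurable hρ.measurable, hρ.map_eq]
  have hfin' : IsFiniteMeasure ρ' := by
    rw [hρ']
    exact Measure.isFiniteMeasure_map ρ _
  set G : C(ZZ ι, ℂ) := ⟨fun z => ec (pr (m.filter (fun i => ¬ j + 1 ≤ W.lev i)) z.1 +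
    pr (m'.filter (fun i => ¬ j + 1 ≤ W.lev i)) z.2), continuous_ch _ _⟩ with hG
  have hstep := stepA (Sp W p q (j + 1)) (continuous_Sp W p q (j + 1))
    (Rw l (p ^ (j + 1)) (q ^ (j + 1))) (Rw_continuous l _ _) (Rw_continuous' l _ _) (Rw_zero l _ _)
    (fun s z => Rw_Sp W p q (j + 1) l (by omega) _ _ s z)
    (fun ν hν hνS s => rw_inv W p q j h l hl ν hν hνS s)
    (bP W (j + 1) p q m m') (continuous_bP W (j + 1) p q m m')
    (bH W (j + 1) p q m m') (continuous_bH W (j + 1) p q m m') _ _ hδ0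
    (fun s z => bP_Rw W (j + 1) p q (p ^ (j + 1)) (q ^ (j + 1)) l (by omega) m m' s z)
    (fun s z => bH_lip W (j + 1) p q (p ^ (j + 1)) (q ^ (j + 1)) l (by omega) m m' L L' hL hL' s z)
    ρ' hρ'inv G
  rw [hρ', integral_map hPc.measurable.aemeasurable] at hstep
  · rw [← hstep]
    refine integral_congr_ae (Eventually.of_forall fun z => ?_)
    change ec (pr m z.1 + pr m' z.2) = ec (pr (m.filter (fun i => j + 1 ≤ W.lev i)) z.1 +
      pr (m'.filter (fun i => j + 1 ≤ W.lev i)) z.2) *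
      ec (pr (m.filter (fun i => ¬ j + 1 ≤ W.lev i)) (cut W (j + 1) z.1) +
      pr (m'.filter (fun i => ¬ j + 1 ≤ W.lev i)) (cut W (j + 1) z.2))
    rw [← ec_add, pr_filter W (j + 1) m z.1, pr_filter W (j + 1) m' z.2]
    congr 1
    abel
  · exact ((continuous_ec.comp continuous_snd).mul
      (G.continuous.comp continuous_fst)).measurable.aestronglyMeasurable

/-- the induction -/
theorem HH_all [Countable ι] (p q j : ℕ) : HH W p q j := by
  induction j with
  | zero => exact HH_zero W p q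
  | succ j ih => exact HH_succ W p q j ih

end Pool.Agent.Lib.MP_9fe581_an.FT
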