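import Mathlib
import Pool.Agent.Lib.MP_9fe581_an.FT.IndStep
import Pool.Agent.Lib.MP_9fe581_an.Kbsz

/-!
# Empirical measures and the orthogonality criterion
-/

set_option autoImplicit false

namespace Pool.Agent.Lib.MP_9fe581_an.FT

open Finset MeasureTheory Filter
open scoped Topology ComplexConjugate

/-- the empirical measure -/
noncomputable def emp {Z : Type} [MeasurableSpace Z] (S : Z → Z) (z : Z) (N : ℕ) : Measure Z :=
  (((N + 1 : ℕ) : NNReal))⁻¹ • ∑ n ∈ range (N + 1), Measure.dirac (S^[n + 1] z)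

theorem emp_prob {Z : Type} [MeasurableSpace Z] (S : Z → Z) (z : Z) (N : ℕ) :
    IsProbabilityMeasure (emp S z N) := by
  refine ⟨?_⟩
  unfold emp
  rw [Measure.smul_apply, Measure.finsetSum_apply]
  simp only [measure_univ, sum_const, card_range]
  rw [nsmul_eq_mul, mul_one, ENNReal.smul_def, smul_eq_mul]
  have h : ((N + 1 : ℕ) : NNReal) ≠ 0 := by positivity
  rw [ENNReal.coe_inv h]
  exact ENNReal.inv_mul_cancel (by exact_mod_cast h) (ENNReal.natCast_ne_top _)

theorem emp_int {Z E : Type} [TopologicalSpace Z] [CompactSpace Z] [TopologicalSpace.MetrizableSpace Z]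
    [MeasurableSpace Z] [BorelSpace Z] [NormedAddCommGroup E] [NormedSpace ℝ E] [CompleteSpace E]
    [SecondCountableTopology E] [MeasurableSpace E] [BorelSpace E]
    (S : Z → Z) (z : Z) (N : ℕ) (f : Z → E) (hf : Continuous f) :
    ∫ y, f y ∂(emp S z N) = (((N + 1 : ℕ) : ℝ))⁻¹ • ∑ n ∈ range (N + 1), f (S^[n + 1] z) := by
  have hd : ∀ y, ∫ w, f w ∂(Measure.dirac y) = f y := fun y =>
    integral_dirac' _ _ hf.measurable.stronglyMeasurable
  unfold emp
  rw [integral_smul_nnreal_measure, integral_finsetSum_measure]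
  · simp_rw [hd]
    rw [NNReal.smul_def]
    simp
  · intro n _
    obtain ⟨C, hC⟩ : ∃ C, ∀ y, ‖f y‖ ≤ C := by
      obtain ⟨C, hC⟩ := (isCompact_range hf.norm).bddAbove
      exact ⟨C, fun y => hC ⟨y, rfl⟩⟩
    exact Integrable.of_bound hf.measurable.aestronglyMeasurable C (Eventually.of_forall hC)

/-- if `∫ f dρ = 0` for all invariant measures `ρ`, then the averages of `f` along every orbit tend to `0` -/
theorem emp_tendsto {Z : Type} [TopologicalSpace Z] [CompactSpace Z] [TopologicalSpace.MetrizableSpace Z]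
    [MeasurableSpace Z] [BorelSpace Z] (S : Z → Z) (hS : Continuous S) (f : C(Z, ℂ))
    (h : ∀ ρ : Measure Z, IsFiniteMeasure ρ → MeasurePreserving S ρ ρ → ∫ z, f z ∂ρ = 0) (z : Z) :
    Tendsto (fun N : ℕ => (1 / (N : ℝ)) * ‖∑ n ∈ Icc 1 N, f (S^[n] z)‖) atTop (𝓝 0) := by
  let _ : MetricSpace Z := TopologicalSpace.metrizableSpaceMetric Z
  rw [← tendsto_add_atTop_iff_nat 1]
  set μ : ℕ → ProbabilityMeasure Z := fun N => ⟨emp S z N, emp_prob S z N⟩ with hμ
  have hconv : (fun N : ℕ => (1 / ((N + 1 : ℕ) : ℝ)) * ‖∑ n ∈ Icc 1 (N + 1), f (S^[n] z)‖) =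
      fun N => ‖∫ y, f y ∂(μ N : Measure Z)‖ := by
    funext N
    have h1 : ∫ y, f y ∂(μ N : Measure Z) = (((N + 1 : ℕ) : ℝ))⁻¹ • ∑ n ∈ range (N + 1), f (S^[n + 1] z) :=
      emp_int S z N f f.continuous
    rw [h1, norm_smul, Real.norm_of_nonneg (by positivity), one_div]
    congr 2
    rw [Finset.range_eq_Ico, Finset.sum_Ico_add' (fun n => f (S^[n] z)) 0 (N + 1) 1]
    rfl
  rw [hconv, tendsto_iff_ultrafilter]
  intro U hU
  -- the limit measure
  obtain ⟨ρ, -, hρ⟩ := isCompact_univ.ultrafilter_le_nhds (U.map μ) (by simp)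
  have hρt : Tendsto μ (U : Filter ℕ) (𝓝 ρ) := hρ
  have hR := ProbabilityMeasure.tendsto_iff_forall_integral_tendsto.mp hρt
  have hC := (ProbabilityMeasure.tendsto_iff_forall_integral_rclike_tendsto ℂ).mp hρt
  -- invariance
  have hinv : MeasurePreserving S (ρ : Measure Z) (ρ : Measure Z) := by
    refine ⟨hS.measurable, ?_⟩
    have hfm : IsFiniteMeasure (Measure.map S (ρ : Measure Z)) := Measure.isFiniteMeasure_map _ _
    refine ext_of_forall_integral_eq_of_IsFiniteMeasure fun g => ?_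
    rw [integral_map hS.measurable.aemeasurable g.continuous.measurable.aestronglyMeasurable]
    set gS : BoundedContinuousFunction Z ℝ := g.compContinuous ⟨S, hS⟩ with hgS
    have t1 : Tendsto (fun N => ∫ y, gS y ∂(μ N : Measure Z)) (U : Filter ℕ) (𝓝 (∫ y, gS y ∂(ρ : Measure Z))) := hR gS
    have t2 : Tendsto (fun N => ∫ y, g y ∂(μ N : Measure Z)) (U : Filter ℕ) (𝓝 (∫ y, g y ∂(ρ : Measure Z))) := hR g
    have t3 : Tendsto (fun N => ∫ y, gS y ∂(μ N : Measure Z) - ∫ y, g y ∂(μ N : Measure Z)) atTop (𝓝 0) := by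
      rw [tendsto_zero_iff_norm_tendsto_zero]
      have hb : Tendsto (fun N : ℕ => 2 * ‖g‖ * (1 / ((N : ℝ) + 1))) atTop (𝓝 (2 * ‖g‖ * 0)) :=
        tendsto_one_div_add_atTop_nhds_zero_nat.const_mul _
      rw [mul_zero] at hb
      refine squeeze_zero (fun N => norm_nonneg _) (fun N => ?_) hb
      have e1 : ∫ y, gS y ∂(μ N : Measure Z) = (((N + 1 : ℕ) : ℝ))⁻¹ • ∑ n ∈ range (N + 1), g (S (S^[n + 1] z)) :=
        emp_int S z N gS gS.continuous
      have e2 : ∫ y, g y ∂(μ N : Measure Z) = (((N + 1 : ℕ) : ℝ))⁻¹ • ∑ n ∈ range (N + 1), g (S^[n + 1] z) :=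
        emp_int S z N g g.continuous
      have e3 : ∑ n ∈ range (N + 1), g (S (S^[n + 1] z)) - ∑ n ∈ range (N + 1), g (S^[n + 1] z) =
          g (S^[N + 2] z) - g (S^[1] z) := by
        rw [← Finset.sum_sub_distrib]
        have h2 := Finset.sum_range_sub (fun n => g (S^[n + 1] z)) (N + 1)
        rw [← h2]
        refine Finset.sum_congr rfl fun n _ => ?_
        rw [← Function.iterate_succ_apply' S (n + 1) z]
      rw [e1, e2, ← smul_sub, e3, norm_smul, Real.norm_of_nonneg (by positivity)]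
      have e4 : ‖g (S^[N + 2] z) - g (S^[1] z)‖ ≤ 2 * ‖g‖ := by
        refine (norm_sub_le _ _).trans ?_
        linarith [g.norm_coe_le_norm (S^[N + 2] z), g.norm_coe_le_norm (S^[1] z)]
      calc (((N + 1 : ℕ) : ℝ))⁻¹ * ‖g (S^[N + 2] z) - g (S^[1] z)‖
          ≤ (((N + 1 : ℕ) : ℝ))⁻¹ * (2 * ‖g‖) := by gcongr
        _ = 2 * ‖g‖ * (1 / ((N : ℝ) + 1)) := by
            push_cast
            ring
    have t4 := t1.sub t2
    have t5 := tendsto_nhds_unique t4 (t3.mono_left hU)
    have t6 : ∫ y, gS y ∂(ρ : Measure Z) = ∫ y, g y ∂(ρ : Measure Z) := by linarith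
    exact t6
  -- conclusion
  have hzero := h (ρ : Measure Z) inferInstance hinv
  set fb : BoundedContinuousFunction Z ℂ := BoundedContinuousFunction.mkOfCompact f with hfb
  have t7 : Tendsto (fun N => ∫ y, f y ∂(μ N : Measure Z)) (U : Filter ℕ) (𝓝 (∫ y, f y ∂(ρ : Measure Z))) := hC fb
  rw [hzero] at t7
  have t8 := t7.norm
  rwa [norm_zero] at t8

variable {ι : Type} (W : Tower ι)

/-- orthogonality of nontrivial characters along the orbits to bounded multiplicative functions -/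
theorem char_orth [Countable ι] (u : ℕ → ℂ) (hu1 : ∀ n, ‖u n‖ ≤ 1)
    (hmul : ∀ m n, Nat.Coprime m n → u (m * n) = u m * u n) (m : ι →₀ ℤ) (hm : m ≠ 0)
    (x : ι → UnitAddCircle) :
    Tendsto (fun N : ℕ => (1 / (N : ℝ)) * ‖∑ n ∈ Icc 1 N, u n * ec (pr m ((T W)^[n] x))‖)
      atTop (𝓝 0) := by
  refine kbsz hu1 hmul (fun n => (norm_ec _).le) ?_
  intro p q hp hq hpq
  set S : ZZ ι → ZZ ι := Prod.map ((T W)^[p]) ((T W)^[q]) with hS
  have hSc : Continuous S := ((continuous_T W).iterate p).prodMap ((continuous_T W).iterate q)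
  set f : C(ZZ ι, ℂ) := ⟨fun z => ec (pr m z.1 + pr (-m) z.2), continuous_ch m (-m)⟩ with hf
  -- the largest level
  have hne : m.support.Nonempty := Finsupp.support_nonempty_iff.mpr hm
  obtain ⟨l, hl, hmax⟩ := Finset.exists_max_image m.support W.lev hne
  set j : ℕ := W.lev l with hj
  have hml : m l ≠ 0 := Finsupp.mem_support_iff.mp hl
  have key : ∀ ρ : Measure (ZZ ι), IsFiniteMeasure ρ → MeasurePreserving S ρ ρ → ∫ z, f z ∂ρ = 0 := by
    intro ρ hfin hρ
    set c : ZZ ι → ZZ ι := Prod.map (cut W (j + 1)) (cut W (j + 1)) with hc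
    have hcc : Continuous c := (continuous_cut W (j + 1)).prodMap (continuous_cut W (j + 1))
    have hfin' : IsFiniteMeasure (Measure.map c ρ) := Measure.isFiniteMeasure_map ρ c
    have hSp : Measurable (Sp W p q (j + 1)) := (continuous_Sp W p q (j + 1)).measurable
    have hinv : MeasurePreserving (Sp W p q (j + 1)) (Measure.map c ρ) (Measure.map c ρ) := by
      refine ⟨hSp, ?_⟩
      rw [Measure.map_map hSp hcc.measurable]
      have h1 : Sp W p q (j + 1) ∘ c = c ∘ S := by
        funext z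
        refine Prod.ext ?_ ?_
        · exact (cut_iter_T W (j + 1) p z.1).symm
        · exact (cut_iter_T W (j + 1) q z.2).symm
      rw [h1, ← Measure.map_map hcc.measurable hρ.measurable, hρ.map_eq]
    have h2 := HH_all W p q j (Measure.map c ρ) hfin' hinv m (-m) ⟨l, rfl, ?_⟩
    · rw [integral_map hcc.measurable.aemeasurable
        (continuous_ch m (-m)).measurable.aestronglyMeasurable] at h2
      rw [← h2]
      refine integral_congr_ae (Eventually.of_forall fun z => ?_)
      change ec (pr m z.1 + pr (-m) z.2) =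
        ec (pr m (cut W (j + 1) z.1) + pr (-m) (cut W (j + 1) z.2))
      have h3 : ∀ (k : ι →₀ ℤ), (∀ i, k i ≠ 0 → m i ≠ 0) → ∀ y, pr k (cut W (j + 1) y) = pr k y := by
        intro k hk y
        refine pr_congr _ _ _ fun i hi => cut_lt W ?_ y
        have := hmax i (Finsupp.mem_support_iff.mpr (hk i hi))
        omega
      rw [h3 m (fun i h => h), h3 (-m) (fun i h h' => h (by simp [h']))]
    · have h4 : (p : ℤ) ^ (j + 1) ≠ (q : ℤ) ^ (j + 1) := by
        intro h5
        apply hpq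
        have h6 : p ^ (j + 1) = q ^ (j + 1) := by exact_mod_cast h5
        exact Nat.pow_left_injective (by omega) h6
      rw [Finsupp.neg_apply, mul_neg, ← sub_eq_add_neg, ← sub_mul]
      exact mul_ne_zero (sub_ne_zero.mpr h4) hml
  have h7 := emp_tendsto S hSc f key (x, x)
  refine h7.congr fun N => ?_
  congr 2
  refine Finset.sum_congr rfl fun n _ => ?_
  have h8 : S^[n] (x, x) = ((T W)^[p * n] x, (T W)^[q * n] x) := by
    rw [hS, Prod.map_iterate, Function.iterate_mul, Function.iterate_mul]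
    rfl
  change ec (pr m (S^[n] (x, x)).1 + pr (-m) (S^[n] (x, x)).2) = _
  rw [h8, ec_add, pr_neg, ec_neg]

end Pool.Agent.Lib.MP_9fe581_an.FT
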