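import Mathlib
import Pool.Agent.Lib.MP_9fe581_an.FT.Alg

/-!
# The tower map is a distal homeomorphism
-/

set_option autoImplicit false

namespace Pool.Agent.Lib.MP_9fe581_an.FT

open Finset Filter
open scoped Topology

variable {ι : Type} (W : Tower ι)

theorem T_inj : Function.Injective (T W) := by
  intro x y hxy
  have h : ∀ n : ℕ, ∀ i, W.lev i = n → x i = y i := by
    intro n
    induction n using Nat.strong_induction_on with
    | _ n ih =>
      intro i hi
      have h1 : T W x i = T W y i := congrFun hxy i
      unfold T at h1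
      rw [phi_congr W i x y (fun l hl => ih (W.lev l) (by omega) l rfl)] at h1
      exact add_right_cancel h1
  funext i
  exact h (W.lev i) i rfl

/-- approximations of the preimage -/
noncomputable def inv0 (y : ι → UnitAddCircle) : ℕ → (ι → UnitAddCircle)
  | 0 => 0
  | k + 1 => fun i => y i - phi W i (inv0 y k)

theorem inv0_stable (y : ι → UnitAddCircle) (k : ℕ) : ∀ i, W.lev i < k →
    inv0 W y (k + 1) i = inv0 W y k i := by
  induction k with
  | zero => intro i hi; omega
  | succ k ih =>
    intro i hi
    change y i - phi W i (inv0 W y (k + 1)) = y i - phi W i (inv0 W y k)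
    rw [phi_congr W i _ _ fun l hl => ih l (by omega)]

theorem inv0_stable' (y : ι → UnitAddCircle) (i : ι) (k : ℕ) (hk : W.lev i < k) :
    inv0 W y k i = inv0 W y (W.lev i + 1) i := by
  induction k, hk using Nat.le_induction with
  | base => rfl
  | succ k hk ih => rw [inv0_stable W y k i hk, ih]

theorem T_surj : Function.Surjective (T W) := by
  intro y
  refine ⟨fun i => inv0 W y (W.lev i + 1) i, ?_⟩
  funext i
  have h1 : phi W i (fun i => inv0 W y (W.lev i + 1) i) = phi W i (inv0 W y (W.lev i)) :=
    phi_congr W i _ _ fun l hl => (inv0_stable' W y l (W.lev i) hl).symm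
  unfold T
  rw [h1]
  change y i - phi W i (inv0 W y (W.lev i)) + phi W i (inv0 W y (W.lev i)) = y i
  rw [sub_add_cancel]

/-- the tower map as a homeomorphism -/
noncomputable def hT : (ι → UnitAddCircle) ≃ₜ (ι → UnitAddCircle) :=
  Continuous.homeoOfEquivCompactToT2 (f := Equiv.ofBijective (T W) ⟨T_inj W, T_surj W⟩)
    (continuous_T W)

theorem hT_apply (x : ι → UnitAddCircle) : hT W x = T W x := rfl

/-- the state of two orbits which agree below the level of `i` -/
private def Ag (i : ι) (d : UnitAddCircle) (x y : ι → UnitAddCircle) : Prop :=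
  (∀ l, W.lev l < W.lev i → x l = y l) ∧ x i - y i = d

private theorem Ag_T {i : ι} {d : UnitAddCircle} {x y : ι → UnitAddCircle} (h : Ag W i d x y) :
    Ag W i d (T W x) (T W y) := by
  refine ⟨fun l hl => ?_, ?_⟩
  · unfold T
    rw [h.1 l hl, phi_congr W l x y fun k hk => h.1 k (by omega)]
  · unfold T
    rw [phi_congr W i x y h.1, add_sub_add_right_eq_sub]
    exact h.2

private theorem Ag_inv {i : ι} {d : UnitAddCircle} {x y : ι → UnitAddCircle}
    (h : Ag W i d (T W x) (T W y)) : Ag W i d x y := by
  have h1 : ∀ n : ℕ, ∀ l, W.lev l = n → W.lev l < W.lev i → x l = y l := by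
    intro n
    induction n using Nat.strong_induction_on with
    | _ n ih =>
      intro l hl hli
      have h2 := h.1 l hli
      unfold T at h2
      rw [phi_congr W l x y (fun k hk => ih (W.lev k) (by omega) k rfl (by omega))] at h2
      exact add_right_cancel h2
  have h3 : ∀ l, W.lev l < W.lev i → x l = y l := fun l hl => h1 (W.lev l) l rfl hl
  refine ⟨h3, ?_⟩
  have h4 := h.2
  unfold T at h4
  rwa [phi_congr W i x y h3, add_sub_add_right_eq_sub] at h4

/-- distality, with an explicit witness: a coordinate whose difference is constant -/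
theorem T_distal (x y : ι → UnitAddCircle) (hxy : x ≠ y) :
    ∃ i, x i ≠ y i ∧ ∀ n : ℕ, ((hT W)^[n] x) i - ((hT W)^[n] y) i = x i - y i ∧
      ((hT W).symm^[n] x) i - ((hT W).symm^[n] y) i = x i - y i := by
  classical
  obtain ⟨i0, hi0⟩ := Function.ne_iff.mp hxy
  have hex : ∃ n, ∃ i, W.lev i = n ∧ x i ≠ y i := ⟨_, i0, rfl, hi0⟩
  obtain ⟨i, hi, hne⟩ := Nat.find_spec hex
  have hmin : ∀ l, W.lev l < W.lev i → x l = y l := by
    intro l hl
    by_contra hcon
    exact Nat.find_min hex (m := W.lev l) (by omega) ⟨l, rfl, hcon⟩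
  have h0 : Ag W i (x i - y i) x y := ⟨hmin, rfl⟩
  have h1 : ∀ n : ℕ, Ag W i (x i - y i) ((hT W)^[n] x) ((hT W)^[n] y) := by
    intro n
    induction n with
    | zero => exact h0
    | succ n ih =>
      rw [Function.iterate_succ_apply', Function.iterate_succ_apply']
      exact Ag_T W ih
  have h2 : ∀ n : ℕ, Ag W i (x i - y i) ((hT W).symm^[n] x) ((hT W).symm^[n] y) := by
    intro n
    induction n with
    | zero => exact h0
    | succ n ih =>
      rw [Function.iterate_succ_apply', Function.iterate_succ_apply']
      apply Ag_inv W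
      rw [← hT_apply, ← hT_apply, Homeomorph.apply_symm_apply, Homeomorph.apply_symm_apply]
      exact ih
  exact ⟨i, hne, fun n => ⟨(h1 n).2, (h2 n).2⟩⟩

end Pool.Agent.Lib.MP_9fe581_an.FT
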