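import Mathlib
import Pool.Agent.Lib.MP_9fe581_an.FT.Emp
import Pool.Agent.Lib.MP_9fe581_an.FT.Homeo
import Pool.Agent.Lib.SW.SWFinal

/-!
# The main theorem
-/

set_option autoImplicit false

namespace Pool.Agent.Lib.MP_9fe581_an.FT

open Finset MeasureTheory Filter
open scoped Topology ComplexConjugate

variable {ι : Type} (W : Tower ι)

/-- nontrivial characters have mean zero -/
theorem haar_char [Countable ι] (μ : Measure (ι → UnitAddCircle)) [IsProbabilityMeasure μ]
    [μ.IsAddLeftInvariant] (m : ι →₀ ℤ) (hm : m ≠ 0) : ∫ x, ec (pr m x) ∂μ = 0 := by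
  classical
  obtain ⟨l, hl⟩ : ∃ l, m l ≠ 0 := by
    by_contra hcon
    push Not at hcon
    exact hm (Finsupp.ext hcon)
  set v : ι → UnitAddCircle := Pi.single l ((1 / (2 * (m l : ℝ)) : ℝ) : UnitAddCircle) with hv
  have hml : (m l : ℝ) ≠ 0 := by exact_mod_cast hl
  have h1 : pr m v = ((1 / 2 : ℝ) : UnitAddCircle) := by
    rw [hv, pr_single, ← AddCircle.coe_zsmul, zsmul_eq_mul]
    congr 1
    field_simp
  have h2 : ((1 / 2 : ℝ) : UnitAddCircle) ≠ 0 := by
    intro h
    rw [AddCircle.coe_eq_zero_iff] at h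
    obtain ⟨n, hn⟩ := h
    rw [zsmul_eq_mul, mul_one] at hn
    have h3 : ((2 * n : ℤ) : ℝ) = ((1 : ℤ) : ℝ) := by
      push_cast
      rw [hn]
      norm_num
    have h4 : 2 * n = 1 := by exact_mod_cast h3
    omega
  have h3 : ec (pr m v) ≠ 1 := by
    rw [h1]
    exact fun h => h2 (ec_eq_one h)
  have h4 : ∫ x, ec (pr m (v + x)) ∂μ = ∫ x, ec (pr m x) ∂μ :=
    integral_add_left_eq_self (fun x => ec (pr m x)) v
  simp_rw [pr_add_right, ec_add] at h4
  rw [integral_const_mul] at h4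
  have h5 : (ec (pr m v) - 1) * ∫ x, ec (pr m x) ∂μ = 0 := by
    rw [sub_mul, one_mul, h4, sub_self]
  rcases mul_eq_zero.mp h5 with h6 | h6
  · exact absurd (sub_eq_zero.mp h6) h3
  · exact h6

/-- the weighted averages -/
noncomputable def av (u : ℕ → ℂ) (x : ι → UnitAddCircle) (g : (ι → UnitAddCircle) → ℂ) (c : ℂ)
    (N : ℕ) : ℂ := (1 / (N : ℂ)) * ∑ n ∈ Icc 1 N, u n * (g ((T W)^[n] x) - c)

theorem av_bound (u : ℕ → ℂ) (hu1 : ∀ n, ‖u n‖ ≤ 1) (x : ι → UnitAddCircle)
    (g : (ι → UnitAddCircle) → ℂ) (c : ℂ) (M : ℝ) (hM : ∀ y, ‖g y - c‖ ≤ M) (N : ℕ) :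
    ‖av W u x g c N‖ ≤ M := by
  have hM0 : 0 ≤ M := (norm_nonneg _).trans (hM 0)
  unfold av
  rcases Nat.eq_zero_or_pos N with h | h
  · subst h
    simpa using hM0
  · have hN : (0 : ℝ) < N := by exact_mod_cast h
    rw [norm_mul, norm_div, norm_one, Complex.norm_natCast]
    have h1 : ‖∑ n ∈ Icc 1 N, u n * (g ((T W)^[n] x) - c)‖ ≤ N * M := by
      refine (norm_sum_le _ _).trans ?_
      refine (Finset.sum_le_sum (g := fun _ => M) fun n _ => ?_).trans (le_of_eq ?_)
      · rw [norm_mul]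
        calc ‖u n‖ * ‖g ((T W)^[n] x) - c‖ ≤ 1 * M := by
              refine mul_le_mul (hu1 n) (hM _) (norm_nonneg _) zero_le_one
          _ = M := one_mul M
      · rw [Finset.sum_const, Nat.card_Icc, nsmul_eq_mul, Nat.add_sub_cancel]
    calc 1 / (N : ℝ) * ‖∑ n ∈ Icc 1 N, u n * (g ((T W)^[n] x) - c)‖ ≤ 1 / (N : ℝ) * (N * M) := by
          gcongr
      _ = M := by field_simp

theorem av_add (u : ℕ → ℂ) (x : ι → UnitAddCircle) (g g' : (ι → UnitAddCircle) → ℂ) (c c' : ℂ)
    (N : ℕ) : av W u x (fun y => g y + g' y) (c + c') N = av W u x g c N + av W u x g' c' N := by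
  unfold av
  rw [← mul_add, ← Finset.sum_add_distrib]
  congr 1
  refine Finset.sum_congr rfl fun n _ => ?_
  ring

theorem av_smul (u : ℕ → ℂ) (x : ι → UnitAddCircle) (a : ℂ) (g : (ι → UnitAddCircle) → ℂ) (c : ℂ)
    (N : ℕ) : av W u x (fun y => a * g y) (a * c) N = a * av W u x g c N := by
  unfold av
  have h1 : ∑ n ∈ Icc 1 N, u n * (a * g ((T W)^[n] x) - a * c) =
      a * ∑ n ∈ Icc 1 N, u n * (g ((T W)^[n] x) - c) := by
    rw [Finset.mul_sum]
    refine Finset.sum_congr rfl fun n _ => ?_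
    ring
  rw [h1]
  ring

theorem orth_all [Countable ι] (μ : Measure (ι → UnitAddCircle)) [IsProbabilityMeasure μ]
    [μ.IsAddLeftInvariant] (u : ℕ → ℂ) (hu1 : ∀ n, ‖u n‖ ≤ 1)
    (hmul : ∀ m n, Nat.Coprime m n → u (m * n) = u m * u n) (f : C(ι → UnitAddCircle, ℂ))
    (x : ι → UnitAddCircle) :
    Tendsto (av W u x f (∫ y, f y ∂μ)) atTop (𝓝 0) := by
  have hint : ∀ (g : C(ι → UnitAddCircle, ℂ)), Integrable g μ := fun g =>
    Integrable.of_bound g.continuous.measurable.aestronglyMeasurable ‖g‖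
      (Eventually.of_forall g.norm_coe_le_norm)
  have hspan : ∀ p ∈ Submodule.span ℂ (chX ι : Set C(ι → UnitAddCircle, ℂ)),
      Tendsto (av W u x p (∫ y, p y ∂μ)) atTop (𝓝 0) := by
    intro p hp
    induction hp using Submodule.span_induction with
    | mem p hp =>
      obtain ⟨m, hm⟩ := hp
      by_cases h0 : m = 0
      · subst h0
        have h1 : ∀ y, p y = 1 := fun y => by rw [hm, pr_zero, ec_zero]
        have h2 : ∫ y, p y ∂μ = 1 := by
          simp_rw [h1]
          simp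
        rw [h2]
        have h3 : av W u x p 1 = fun _ => 0 := by
          funext N
          unfold av
          simp [h1]
        rw [h3]
        exact tendsto_const_nhds
      · have h2 : ∫ y, p y ∂μ = 0 := by
          simp_rw [hm]
          exact haar_char μ m h0
        rw [h2, tendsto_zero_iff_norm_tendsto_zero]
        refine (char_orth W u hu1 hmul m h0 x).congr fun N => ?_
        unfold av
        rw [norm_mul, norm_div, norm_one, Complex.norm_natCast]
        congr 2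
        refine Finset.sum_congr rfl fun n _ => ?_
        rw [hm, sub_zero]
    | zero =>
      have h3 : av W u x (0 : C(ι → UnitAddCircle, ℂ)) (∫ y, (0 : C(ι → UnitAddCircle, ℂ)) y ∂μ) =
          fun _ => 0 := by
        funext N
        unfold av
        simp
      rw [h3]
      exact tendsto_const_nhds
    | add g g' _ _ hg hg' =>
      have e1 : ∫ y, (g + g') y ∂μ = ∫ y, g y ∂μ + ∫ y, g' y ∂μ := integral_add (hint g) (hint g')
      rw [e1]
      have h4 := hg.add hg'
      rw [add_zero] at h4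
      refine h4.congr fun N => ?_
      exact (av_add W u x g g' _ _ N).symm
    | smul a g _ hg =>
      have e1 : ∫ y, (a • g) y ∂μ = a * ∫ y, g y ∂μ := integral_const_mul a _
      rw [e1]
      have h4 := hg.const_mul a
      rw [mul_zero] at h4
      refine h4.congr fun N => ?_
      exact (av_smul W u x a g _ N).symm
  rw [Metric.tendsto_atTop]
  intro ε hε
  obtain ⟨p, hp, hd⟩ := dens_span (chX ι) (chX_star ι) (chX_sep ι) f (ε / 4) (by positivity)
  obtain ⟨N0, hN0⟩ := (Metric.tendsto_atTop.mp (hspan p hp)) (ε / 4) (by positivity)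
  refine ⟨N0, fun N hN => ?_⟩
  have h5 := hN0 N hN
  rw [dist_zero_right] at h5 ⊢
  have h6 : av W u x f (∫ y, f y ∂μ) N = av W u x p (∫ y, p y ∂μ) N +
      av W u x (fun y => f y - p y) (∫ y, f y ∂μ - ∫ y, p y ∂μ) N := by
    rw [← av_add]
    congr 1
    · funext y
      ring
    · ring
  have h7 : ∀ y, ‖f y - p y‖ ≤ ε / 4 := fun y => ((f - p).norm_coe_le_norm y).trans hd.le
  have h8 : ‖∫ y, f y ∂μ - ∫ y, p y ∂μ‖ ≤ ε / 4 := by
    rw [← integral_sub (hint f) (hint p)]
    have h9 := norm_integral_le_of_norm_le_const (μ := μ) (f := fun y => f y - p y) (C := ε / 4)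
      (Eventually.of_forall h7)
    simpa using h9
  have h10 : ‖av W u x (fun y => f y - p y) (∫ y, f y ∂μ - ∫ y, p y ∂μ) N‖ ≤ ε / 2 := by
    refine av_bound W u hu1 x _ _ _ (fun y => ?_) N
    refine (norm_sub_le _ _).trans ?_
    linarith [h7 y]
  rw [h6]
  refine (norm_add_le _ _).trans_lt ?_
  linarith

/-- the prime number theorem for the Moebius function -/
theorem mu_pnt : Tendsto (fun N : ℕ => (1 / (N : ℂ)) * ∑ n ∈ Icc 1 N,
    ((ArithmeticFunction.moebius n : ℤ) : ℂ)) atTop (𝓝 0) := by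
  obtain ⟨C, hC, hb⟩ := Pool.Agent.Lib.SW.mu_sum 1
  rw [tendsto_zero_iff_norm_tendsto_zero]
  have h1 : Tendsto (fun N : ℕ => C / Real.log N) atTop (𝓝 0) :=
    Tendsto.div_atTop tendsto_const_nhds (Real.tendsto_log_atTop.comp tendsto_natCast_atTop_atTop)
  refine squeeze_zero' (Eventually.of_forall fun N => norm_nonneg _) ?_ h1
  filter_upwards [eventually_ge_atTop 2] with N hN
  have hN2 : (2 : ℝ) ≤ N := by exact_mod_cast hN
  have h2 := hb N hN2
  rw [Nat.floor_natCast, pow_one] at h2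
  rw [norm_mul, norm_div, norm_one, Complex.norm_natCast]
  have h3 : ‖∑ n ∈ Icc 1 N, ((ArithmeticFunction.moebius n : ℤ) : ℂ)‖ =
      |∑ n ∈ Icc 1 N, ((ArithmeticFunction.moebius n : ℤ) : ℝ)| := by
    have h4 : ∑ n ∈ Icc 1 N, ((ArithmeticFunction.moebius n : ℤ) : ℂ) =
        ((∑ n ∈ Icc 1 N, ((ArithmeticFunction.moebius n : ℤ) : ℝ) : ℝ) : ℂ) := by
      push_cast
      rfl
    rw [h4, Complex.norm_real, Real.norm_eq_abs]
  rw [h3]
  calc 1 / (N : ℝ) * |∑ n ∈ Icc 1 N, ((ArithmeticFunction.moebius n : ℤ) : ℝ)|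
      ≤ 1 / (N : ℝ) * (C * N / Real.log N) := by gcongr
    _ = C / Real.log N := by
        have : (N : ℝ) ≠ 0 := by positivity
        field_simp

/-- Moebius disjointness of the tower -/
theorem moebius_disjoint [Countable ι] (f : (ι → UnitAddCircle) → ℂ) (hf : Continuous f)
    (x : ι → UnitAddCircle) :
    Tendsto (fun N : ℕ => (1 / (N : ℂ)) * ∑ n ∈ Icc 1 N,
      f ((T W)^[n] x) * ((ArithmeticFunction.moebius n : ℤ) : ℂ)) atTop (𝓝 0) := by
  set μ : Measure (ι → UnitAddCircle) := Measure.addHaarMeasure ⊤ with hμ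
  have hprob : IsProbabilityMeasure μ := ⟨by
    rw [hμ]
    have h := Measure.addHaarMeasure_self (G := ι → UnitAddCircle) (K₀ := ⊤)
    rwa [TopologicalSpace.PositiveCompacts.coe_top] at h⟩
  set u : ℕ → ℂ := fun n => ((ArithmeticFunction.moebius n : ℤ) : ℂ) with hu
  have hu1 : ∀ n, ‖u n‖ ≤ 1 := Pool.Agent.Lib.SW.SWF_mu
  have hmul : ∀ m n, Nat.Coprime m n → u (m * n) = u m * u n := by
    intro m n h
    rw [hu]
    simp only
    rw [ArithmeticFunction.isMultiplicative_moebius.map_mul_of_coprime h]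
    push_cast
    rfl
  have h1 := orth_all W μ u hu1 hmul ⟨f, hf⟩ x
  have h2 := mu_pnt.const_mul (∫ y, f y ∂μ)
  rw [mul_zero] at h2
  have h3 := h1.add h2
  rw [add_zero] at h3
  refine h3.congr fun N => ?_
  unfold av
  have h4 : ∑ n ∈ Icc 1 N, f ((T W)^[n] x) * ((ArithmeticFunction.moebius n : ℤ) : ℂ) =
      ∑ n ∈ Icc 1 N, u n * ((⟨f, hf⟩ : C(ι → UnitAddCircle, ℂ)) ((T W)^[n] x) - ∫ y, f y ∂μ) +
      (∫ y, f y ∂μ) * ∑ n ∈ Icc 1 N, ((ArithmeticFunction.moebius n : ℤ) : ℂ) := by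
    rw [Finset.mul_sum, ← Finset.sum_add_distrib]
    refine Finset.sum_congr rfl fun n _ => ?_
    rw [hu]
    simp only [ContinuousMap.coe_mk]
    ring
  rw [h4]
  simp only [ContinuousMap.coe_mk]
  ring

end Pool.Agent.Lib.MP_9fe581_an.FT
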